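import Pool.Agent.helper35.MR.SpecA

/-!
# Module mr:B1
-/

set_option autoImplicit false

open Finset

namespace Pool.Agent.helper35.MR

open Pool.Agent.RRank

theorem B1 (hBX : BX_stmt) : B1_stmt := by
  intro K _ V a b c δ hV hδ hα hβ hγ n hn
  by_contra hG
  obtain ⟨t, s, a', b', c', hv, h1, h2, h3, h4, h5, h6, h7⟩ := hBX K V a b c δ hV hδ n hG
  have key : ∀ i j : Fin n, i < j → s i = 0 ∧ s j = 2 := by
    intro i j hij
    have hne : i ≠ j := ne_of_lt hij
    have hc : cmp i j = .lt := (cmp_eq_lt_iff _ _).2 hij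
    have e1 : s i = 0 ∨ s j = 1 := by
      by_contra hcon
      rw [not_or] at hcon
      have := hv.E1 i j hcon.1 hcon.2
      rw [h5, hc, if_neg hne, add_zero, sub_eq_zero] at this
      exact hα this
    have e2 : s i = 0 ∨ s j = 2 := by
      by_contra hcon
      rw [not_or] at hcon
      have := hv.E2 i j hcon.1 hcon.2
      rw [h6, hc, if_neg hne, add_zero, sub_eq_zero] at this
      exact hγ this
    have e3 : s i = 1 ∨ s j = 2 := by
      by_contra hcon
      rw [not_or] at hcon
      have := hv.E3 i j hcon.1 hcon.2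
      rw [h7, hc, if_neg hne, add_zero, sub_eq_zero] at this
      exact hβ this
    generalize s i = p at *
    generalize s j = q at *
    revert p q
    decide
  have k1 := key ⟨0, by omega⟩ ⟨1, by omega⟩ (by rw [Fin.lt_def]; exact Nat.zero_lt_one)
  have k2 := key ⟨1, by omega⟩ ⟨2, by omega⟩ (by rw [Fin.lt_def]; exact Nat.one_lt_two)
  rw [k1.2] at k2
  exact absurd k2.1 (by decide)

end Pool.Agent.helper35.MR
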