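import Pool.Agent.helper35.MR.SpecA

/-!
# Module mr:B2
-/

set_option autoImplicit false

open Finset

namespace Pool.Agent.helper35.MR

open Pool.Agent.RRank

theorem B2 (hBX : BX_stmt) : B2_stmt := by
  intro K _ V a b c δ hV hδ hα hβ hγ n hn
  by_contra hG
  obtain ⟨t, s, a', b', c', hv, h1, h2, h3, h4, h5, h6, h7⟩ := hBX K V a b c δ hV hδ n hG
  have key : ∀ i j : Fin n, i < j → (s i = 0 ∧ s j = 2) ∨ (s i = 1 ∧ s j = 1) := by
    intro i j hij
    have hne : i ≠ j := ne_of_lt hij
    have hc : cmp i j = .lt := (cmp_eq_lt_iff _ _).2 hij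
    have e1 : s i = 0 ∨ s j = 1 := by
      by_contra hcon
      rw [not_or] at hcon
      have := hv.E1 i j hcon.1 hcon.2
      rw [h5, hc, if_neg hne, add_zero, sub_eq_zero] at this
      exact hα this
    have e3 : s i = 1 ∨ s j = 2 := by
      by_contra hcon
      rw [not_or] at hcon
      have := hv.E3 i j hcon.1 hcon.2
      rw [h7, hc, if_neg hne, add_zero, sub_eq_zero] at this
      exact hβ this
    generalize s i = p at *
    generalize s j = q at *
    revert p q
    decide
  obtain ⟨m, rfl⟩ : ∃ m, n = m + 2 := ⟨n - 2, by omega⟩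
  -- the last two indices
  have hlt : ((Fin.last m).castSucc : Fin (m + 2)) < Fin.last (m + 1) := Fin.castSucc_lt_last _
  set p : Fin (m + 2) := (Fin.last m).castSucc with hp
  set q : Fin (m + 2) := Fin.last (m + 1) with hq
  have hrest : ∀ i : Fin m, (i.castSucc.castSucc : Fin (m + 2)) < p ∧
      (i.castSucc.castSucc : Fin (m + 2)) < q := by
    intro i
    constructor
    · rw [hp, Fin.lt_def]
      simp
    · rw [hq, Fin.lt_def]
      simp only [Fin.val_castSucc, Fin.val_last]
      omega
  have hpq : p ≠ q := ne_of_lt hlt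
  have hsum : ∀ f : Fin (m + 2) → K, ∑ i, f i =
      ∑ i : Fin m, f i.castSucc.castSucc + f p + f q := by
    intro f
    rw [Fin.sum_univ_castSucc, Fin.sum_univ_castSucc]
  have cpq : cmp p q = .lt := (cmp_eq_lt_iff _ _).2 hlt
  have cqp : cmp q p = .gt := (cmp_eq_gt_iff _ _).2 hlt
  have crr : ∀ i : Fin (m + 2), cmp i i = .eq := fun i => (cmp_eq_eq_iff _ _).2 rfl
  have crp : ∀ i : Fin m, cmp p (i.castSucc.castSucc : Fin (m + 2)) = .gt := fun i =>
    (cmp_eq_gt_iff _ _).2 (hrest i).1
  have crq : ∀ i : Fin m, cmp q (i.castSucc.castSucc : Fin (m + 2)) = .gt := fun i =>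
    (cmp_eq_gt_iff _ _).2 (hrest i).2
  rcases key p q hlt with ⟨sp, sq⟩ | ⟨sp, sq⟩
  · -- then `m = 0`
    have hm : ∀ i : Fin m, False := by
      intro i
      rcases key _ _ (hrest i).1 with ⟨_, h⟩ | ⟨_, h⟩
      · rw [sp] at h; exact absurd h (by decide)
      · rw [sp] at h; exact absurd h (by decide)
    have hsum' : ∀ f : Fin (m + 2) → K, ∑ i, f i = f p + f q := by
      intro f
      rw [hsum, Finset.sum_eq_zero (fun i _ => (hm i).elim), zero_add]
    have b0 : ∀ i, b' i = 0 := by
      intro i
      refine hv.sb i fun h => ?_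
      by_cases h1 : i = p
      · rw [h1, sp] at h; exact absurd h (by decide)
      by_cases h2 : i = q
      · rw [h2, sq] at h; exact absurd h (by decide)
      · -- impossible
        have hi : i < p := by
          have h3 : i < q := lt_of_le_of_ne (Fin.le_last _) h2
          rw [Fin.lt_def] at h3 ⊢
          have h4 : (i : ℕ) ≠ (p : ℕ) := fun h => h1 (Fin.ext h)
          have h5 : (p : ℕ) = m := by rw [hp]; simp
          have h6 : (q : ℕ) = m + 1 := by rw [hq]; simp
          omega
        rcases key _ _ hi with ⟨_, h'⟩ | ⟨_, h'⟩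
        · rw [sp] at h'; exact absurd h' (by decide)
        · rw [sp] at h'; exact absurd h' (by decide)
    have cp : c' p = 0 := hv.sc p (by rw [sp]; decide)
    have aq : a' q = 0 := hv.sa q (by rw [sq]; decide)
    -- E4 at q
    have e4 := hv.E4 q (by rw [sq]; decide)
    rw [h2, Finset.sum_eq_zero (fun j _ => by rw [b0, zero_mul]), add_zero, hsum', cp, zero_mul,
      zero_add, h6, crr] at e4
    have e6 := hv.E6 p (by rw [sp]; decide)
    rw [h4, Finset.sum_eq_zero (f := fun j => b' j * _) (fun j _ => by rw [b0, zero_mul]), add_zero,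
      hsum', aq, zero_mul, add_zero, zero_add, h6, crr] at e6
    have hc0 : c .eq - c .gt ≠ 0 := by
      intro h
      rw [h, mul_zero, add_zero] at e4
      apply hα
      rw [hγ] at e4
      linear_combination -e4
    have ap : a' p = 0 := (mul_eq_zero.1 e6).resolve_right hc0
    have e3 := hv.E3 p p (by rw [sp]; decide) (by rw [sp]; decide)
    rw [h7, crr, if_pos rfl, ap, mul_zero, add_zero] at e3
    have e5 := hv.E5 q (by rw [sq]; decide)
    rw [h3, hsum', hsum', ap, aq, cp, h7 q q, crr, e3] at e5
    apply hβ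
    linear_combination -e5
  · -- all `s i = 1`
    have hs : ∀ i, s i = 1 := by
      intro i
      by_cases h1 : i = q
      · rw [h1]; exact sq
      · have h3 : i < q := lt_of_le_of_ne (Fin.le_last _) h1
        rcases key _ _ h3 with ⟨_, h'⟩ | ⟨h', _⟩
        · rw [sq] at h'; exact absurd h' (by decide)
        · exact h'
    have a0 : ∀ i, a' i = 0 := fun i => hv.sa i (by rw [hs]; decide)
    have c0 : ∀ i, c' i = 0 := fun i => hv.sc i (by rw [hs]; decide)
    have e2 : ∀ i, c .eq - c .gt + δ * b' i = 0 := by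
      intro i
      have := hv.E2 i i (by rw [hs]; decide) (by rw [hs]; decide)
      rwa [h6, crr, if_pos rfl] at this
    have hb : ∀ i j, b' i = b' j := by
      intro i j
      have : δ * b' i = δ * b' j := by linear_combination e2 i - e2 j
      exact mul_left_cancel₀ hδ this
    have e4p := hv.E4 p (by rw [sp]; decide)
    have e4q := hv.E4 q (by rw [sq]; decide)
    rw [h2, Finset.sum_eq_zero (f := fun k => c' k * _) (fun j _ => by rw [c0, zero_mul]), add_zero,
      hsum, Finset.sum_eq_zero (fun i _ => by rw [h5, crp, sub_self, mul_zero]), zero_add, h5, h5,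
      crr, cpq, hb q p] at e4p
    rw [h2, Finset.sum_eq_zero (f := fun k => c' k * _) (fun j _ => by rw [c0, zero_mul]), add_zero,
      hsum, Finset.sum_eq_zero (fun i _ => by rw [h5, crq, sub_self, mul_zero]), zero_add, h5, h5,
      crr, cqp, hb q p] at e4q
    have hva : b' p * (a .lt - a .gt) = 0 := by linear_combination e4p - e4q
    have hb0 : b' p = 0 := (mul_eq_zero.1 hva).resolve_right (sub_ne_zero.2 hα)
    rw [hb0] at e4q
    apply hα
    rw [hγ] at e4q
    linear_combination -e4q

end Pool.Agent.helper35.MR
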