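import Pool.Agent.helper35.MR.SpecA

/-!
# Module mr:BT: the table of the word `x y z P ... P`
-/

set_option autoImplicit false

open Finset

namespace Pool.Agent.helper35.MR

open Pool.Agent.RRank

lemma BT_sub0 {ι K : Type} [Fintype ι] [Field K] (M : ι → ι → ι → K) (u u' v w : ι → K) :
    ev3 M (u - u') v w = ev3 M u v w - ev3 M u' v w := by
  unfold ev3
  simp only [← Finset.sum_sub_distrib]
  refine Finset.sum_congr rfl fun i _ => Finset.sum_congr rfl fun j _ =>
    Finset.sum_congr rfl fun k _ => ?_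
  rw [Pi.sub_apply]
  ring

lemma BT_sub1 {ι K : Type} [Fintype ι] [Field K] (M : ι → ι → ι → K) (u v v' w : ι → K) :
    ev3 M u (v - v') w = ev3 M u v w - ev3 M u v' w := by
  unfold ev3
  simp only [← Finset.sum_sub_distrib]
  refine Finset.sum_congr rfl fun i _ => Finset.sum_congr rfl fun j _ =>
    Finset.sum_congr rfl fun k _ => ?_
  rw [Pi.sub_apply]
  ring

lemma BT_sub2 {ι K : Type} [Fintype ι] [Field K] (M : ι → ι → ι → K) (u v w w' : ι → K) :
    ev3 M u v (w - w') = ev3 M u v w - ev3 M u v w' := by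
  unfold ev3
  simp only [← Finset.sum_sub_distrib]
  refine Finset.sum_congr rfl fun i _ => Finset.sum_congr rfl fun j _ =>
    Finset.sum_congr rfl fun k _ => ?_
  rw [Pi.sub_apply]
  ring

lemma BT_single {ι K : Type} [Fintype ι] [DecidableEq ι] [Field K] (M : ι → ι → ι → K)
    (i j k : ι) :
    ev3 M (Pi.single i 1) (Pi.single j 1) (Pi.single k 1) = M i j k := by
  unfold ev3
  rw [Finset.sum_eq_single i, Finset.sum_eq_single j, Finset.sum_eq_single k]
  · simp
  · intro k' _ hk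
    rw [Pi.single_eq_of_ne hk]
    ring
  · intro h
    exact absurd (Finset.mem_univ _) h
  · intro j' _ hj
    refine Finset.sum_eq_zero fun k' _ => ?_
    rw [Pi.single_eq_of_ne hj]
    ring
  · intro h
    exact absurd (Finset.mem_univ _) h
  · intro i' _ hi
    refine Finset.sum_eq_zero fun j' _ => Finset.sum_eq_zero fun k' _ => ?_
    rw [Pi.single_eq_of_ne hi]
    ring
  · intro h
    exact absurd (Finset.mem_univ _) h

lemma BT_cmp {n : ℕ} (i j : Fin n) :
    cmp ((3 : ℤ) + ((i : ℕ) : ℤ)) ((3 : ℤ) + ((j : ℕ) : ℤ)) = cmp i j := by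
  rcases lt_trichotomy i j with h | h | h
  · rw [(cmp_eq_lt_iff _ _).2 h, (cmp_eq_lt_iff _ _).2]
    have : (i : ℕ) < j := h
    omega
  · rw [(cmp_eq_eq_iff _ _).2 h, (cmp_eq_eq_iff _ _).2]
    rw [h]
  · rw [(cmp_eq_gt_iff _ _).2 h, (cmp_eq_gt_iff _ _).2]
    have : (j : ℕ) < i := h
    omega

theorem BT : BT_stmt := by
  intro K _ V a b c δ hV n t ht
  have lt' : ∀ x y : ℤ, x < y → cmp x y = .lt := fun x y h => (cmp_eq_lt_iff _ _).2 h
  have gt' : ∀ x y : ℤ, y < x → cmp x y = .gt := fun x y h => (cmp_eq_gt_iff _ _).2 h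
  have v000 : V 0 1 2 = a .lt + b .lt + c .lt := by
    rw [hV, lt' 0 1 (by omega), lt' 1 2 (by omega), lt' 0 2 (by omega), if_neg (by omega), add_zero]
  have v100 : ∀ i : Fin n, V (3 + ((i : ℕ) : ℤ)) 1 2 = a .gt + b .lt + c .gt := by
    intro i
    rw [hV, gt' _ 1 (by omega), lt' 1 2 (by omega), gt' _ 2 (by omega), if_neg (by omega), add_zero]
  have v010 : ∀ j : Fin n, V 0 (3 + ((j : ℕ) : ℤ)) 2 = a .lt + b .gt + c .lt := by
    intro j
    rw [hV, lt' 0 _ (by omega), gt' _ 2 (by omega), lt' 0 2 (by omega), if_neg (by omega), add_zero]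
  have v001 : ∀ k : Fin n, V 0 1 (3 + ((k : ℕ) : ℤ)) = a .lt + b .lt + c .lt := by
    intro k
    rw [hV, lt' 0 1 (by omega), lt' 1 _ (by omega), lt' 0 _ (by omega), if_neg (by omega), add_zero]
  have v110 : ∀ i j : Fin n, V (3 + ((i : ℕ) : ℤ)) (3 + ((j : ℕ) : ℤ)) 2 =
      a (cmp i j) + b .gt + c .gt := by
    intro i j
    rw [hV, BT_cmp, gt' _ 2 (by omega), gt' _ 2 (by omega), if_neg (by omega), add_zero]
  have v101 : ∀ i k : Fin n, V (3 + ((i : ℕ) : ℤ)) 1 (3 + ((k : ℕ) : ℤ)) =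
      a .gt + b .lt + c (cmp i k) := by
    intro i k
    rw [hV, BT_cmp, gt' _ 1 (by omega), lt' 1 _ (by omega), if_neg (by omega), add_zero]
  have v011 : ∀ j k : Fin n, V 0 (3 + ((j : ℕ) : ℤ)) (3 + ((k : ℕ) : ℤ)) =
      a .lt + b (cmp j k) + c .lt := by
    intro j k
    rw [hV, BT_cmp, lt' 0 _ (by omega), lt' 0 _ (by omega), if_neg (by omega), add_zero]
  have v111 : ∀ i j k : Fin n, V (3 + ((i : ℕ) : ℤ)) (3 + ((j : ℕ) : ℤ)) (3 + ((k : ℕ) : ℤ)) =
      a (cmp i j) + b (cmp j k) + c (cmp i k) + (if i = j ∧ j = k then δ else 0) := by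
    intro i j k
    rw [hV, BT_cmp, BT_cmp, BT_cmp]
    congr 1
    have : ((3 : ℤ) + ((i : ℕ) : ℤ) = 3 + ((j : ℕ) : ℤ) ∧ (3 : ℤ) + ((j : ℕ) : ℤ) = 3 + ((k : ℕ) : ℤ)) ↔
        (i = j ∧ j = k) := by
      rw [Fin.ext_iff, Fin.ext_iff]
      omega
    simp only [this]
  refine ⟨?_, ?_, ?_, ?_, ?_, ?_, ?_, ?_⟩
  · rw [ht]
    simp only [bas, BT_single, bpos, v000]
  · intro i
    rw [ht]
    simp only [bas, BT_sub0, BT_single, bpos, v000, v100]
    ring
  · intro j
    rw [ht]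
    simp only [bas, BT_sub1, BT_single, bpos, v000, v010]
    ring
  · intro k
    rw [ht]
    simp only [bas, BT_sub2, BT_single, bpos, v000, v001]
    ring
  · intro i j
    rw [ht]
    simp only [bas, BT_sub0, BT_sub1, BT_single, bpos, v000, v100, v010, v110]
    ring
  · intro i k
    rw [ht]
    simp only [bas, BT_sub0, BT_sub2, BT_single, bpos, v000, v100, v001, v101]
    ring
  · intro j k
    rw [ht]
    simp only [bas, BT_sub1, BT_sub2, BT_single, bpos, v000, v010, v001, v011]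
    ring
  · intro i j k
    rw [ht]
    simp only [bas, BT_sub0, BT_sub1, BT_sub2, BT_single, bpos, v000, v100, v010, v001, v110, v101,
      v011, v111]
    ring

end Pool.Agent.helper35.MR
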