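import Pool.Agent.helper35.MR.SpecA

/-!
# Module mr:BX: the equations for form B
-/

set_option autoImplicit false

open Finset

namespace Pool.Agent.helper35.MR

open Pool.Agent.RRank

theorem BX (hBT : BT_stmt) (hEXT : EXT_stmt) (hCHB : CHB_stmt) (hLI : LI_stmt) (hOPT : OPT_stmt) :
    BX_stmt := by
  intro K _ V a b c δ hV hδ n hG
  let M : Option (Fin n) → Option (Fin n) → Option (Fin n) → K :=
    fun i j k => V (bpos 0 i) (bpos 1 j) (bpos 2 k)
  let t : Option (Fin n) → Option (Fin n) → Option (Fin n) → K :=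
    fun i j k => ev3 M (bas i) (bas j) (bas k)
  obtain ⟨h1, h2, h3, h4, h5, h6, h7, h8⟩ := hBT K V a b c δ hV n t (fun _ _ _ => rfl)
  have hnF : ¬ Full3 t := by
    intro hF
    have hM : Full3 M := hCHB K _ M bas bas bas (hLI K n).1 (hLI K n).1 (hLI K n).1 hF
    exact hG (hOPT K V n _ _ _ hM)
  obtain ⟨s, a', b', c', hv⟩ := hEXT K n t δ hδ h8 hnF
  exact ⟨t, s, a', b', c', hv, h1, h2, h3, h4, h5, h6, h7⟩

end Pool.Agent.helper35.MR
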