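import Pool.Agent.helper35.MR.SpecA

/-!
# Module mr:CHB: change of basis
-/

set_option autoImplicit false

open Finset

namespace Pool.Agent.helper35.MR

open Pool.Agent.RRank

/-- `ev3` as a linear map of the first variable -/
def CHB_L0 {ι K : Type} [Fintype ι] [Field K] (M : ι → ι → ι → K) (v w : ι → K) :
    (ι → K) →ₗ[K] K where
  toFun u := ev3 M u v w
  map_add' u u' := by
    unfold ev3
    simp only [← Finset.sum_add_distrib]
    refine Finset.sum_congr rfl fun i _ => Finset.sum_congr rfl fun j _ =>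
      Finset.sum_congr rfl fun k _ => ?_
    rw [Pi.add_apply]
    ring
  map_smul' c u := by
    unfold ev3
    rw [RingHom.id_apply, smul_eq_mul]
    simp only [Finset.mul_sum]
    refine Finset.sum_congr rfl fun i _ => Finset.sum_congr rfl fun j _ =>
      Finset.sum_congr rfl fun k _ => ?_
    rw [Pi.smul_apply, smul_eq_mul]
    ring

/-- `ev3` as a linear map of the second variable -/
def CHB_L1 {ι K : Type} [Fintype ι] [Field K] (M : ι → ι → ι → K) (u w : ι → K) :
    (ι → K) →ₗ[K] K where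
  toFun v := ev3 M u v w
  map_add' v v' := by
    unfold ev3
    simp only [← Finset.sum_add_distrib]
    refine Finset.sum_congr rfl fun i _ => Finset.sum_congr rfl fun j _ =>
      Finset.sum_congr rfl fun k _ => ?_
    rw [Pi.add_apply]
    ring
  map_smul' c v := by
    unfold ev3
    rw [RingHom.id_apply, smul_eq_mul]
    simp only [Finset.mul_sum]
    refine Finset.sum_congr rfl fun i _ => Finset.sum_congr rfl fun j _ =>
      Finset.sum_congr rfl fun k _ => ?_
    rw [Pi.smul_apply, smul_eq_mul]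
    ring

/-- `ev3` as a linear map of the third variable -/
def CHB_L2 {ι K : Type} [Fintype ι] [Field K] (M : ι → ι → ι → K) (u v : ι → K) :
    (ι → K) →ₗ[K] K where
  toFun w := ev3 M u v w
  map_add' w w' := by
    unfold ev3
    simp only [← Finset.sum_add_distrib]
    refine Finset.sum_congr rfl fun i _ => Finset.sum_congr rfl fun j _ =>
      Finset.sum_congr rfl fun k _ => ?_
    rw [Pi.add_apply]
    ring
  map_smul' c w := by
    unfold ev3
    rw [RingHom.id_apply, smul_eq_mul]
    simp only [Finset.mul_sum]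
    refine Finset.sum_congr rfl fun i _ => Finset.sum_congr rfl fun j _ =>
      Finset.sum_congr rfl fun k _ => ?_
    rw [Pi.smul_apply, smul_eq_mul]
    ring

lemma CHB_sum0 {ι K : Type} [Fintype ι] [Field K] (M : ι → ι → ι → K) (p : ι → ι → K)
    (u v w : ι → K) : ev3 M (∑ i, u i • p i) v w = ∑ i, u i * ev3 M (p i) v w := by
  show CHB_L0 M v w (∑ i, u i • p i) = _
  rw [map_sum]
  exact Finset.sum_congr rfl fun i _ => by rw [map_smul, smul_eq_mul]; rfl

lemma CHB_sum1 {ι K : Type} [Fintype ι] [Field K] (M : ι → ι → ι → K) (q : ι → ι → K)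
    (u v w : ι → K) : ev3 M u (∑ i, v i • q i) w = ∑ i, v i * ev3 M u (q i) w := by
  show CHB_L1 M u w (∑ i, v i • q i) = _
  rw [map_sum]
  exact Finset.sum_congr rfl fun i _ => by rw [map_smul, smul_eq_mul]; rfl

lemma CHB_sum2 {ι K : Type} [Fintype ι] [Field K] (M : ι → ι → ι → K) (r : ι → ι → K)
    (u v w : ι → K) : ev3 M u v (∑ i, w i • r i) = ∑ i, w i * ev3 M u v (r i) := by
  show CHB_L2 M u v (∑ i, w i • r i) = _
  rw [map_sum]
  exact Finset.sum_congr rfl fun i _ => by rw [map_smul, smul_eq_mul]; rfl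

lemma CHB_ev {ι K : Type} [Fintype ι] [Field K] (M : ι → ι → ι → K) (p q r : ι → ι → K)
    (u v w : ι → K) :
    ev3 (fun i j k => ev3 M (p i) (q j) (r k)) u v w =
      ev3 M (∑ i, u i • p i) (∑ i, v i • q i) (∑ i, w i • r i) := by
  rw [CHB_sum0]
  show (∑ i, ∑ j, ∑ k, ev3 M (p i) (q j) (r k) * (u i * v j * w k)) = _
  refine Finset.sum_congr rfl fun i _ => ?_
  rw [CHB_sum1, Finset.mul_sum]
  refine Finset.sum_congr rfl fun j _ => ?_
  rw [CHB_sum2, Finset.mul_sum, Finset.mul_sum]
  refine Finset.sum_congr rfl fun k _ => ?_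
  ring

/-- the automorphism given by a basis -/
lemma CHB_aut {ι K : Type} [Fintype ι] [Field K] (p : ι → ι → K) (hp : LinearIndependent K p) :
    ∃ φ : (ι → K) ≃ₗ[K] (ι → K), ∀ u, φ u = ∑ i, u i • p i := by
  have hinj : Function.Injective (Fintype.linearCombination K p) := by
    rw [← LinearMap.ker_eq_bot]
    rw [LinearMap.ker_eq_bot']
    intro m hm
    rw [Fintype.linearCombination_apply] at hm
    funext i
    exact Fintype.linearIndependent_iff.1 hp m hm i
  refine ⟨LinearEquiv.ofInjectiveEndo _ hinj, fun u => ?_⟩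
  have : (LinearEquiv.ofInjectiveEndo (Fintype.linearCombination K p) hinj) u =
      Fintype.linearCombination K p u := rfl
  rw [this, Fintype.linearCombination_apply]

theorem CHB : CHB_stmt := by
  intro K _ ι _ M p q r hp hq hr hF U V W hdim
  obtain ⟨φ, hφ⟩ := CHB_aut p hp
  obtain ⟨ψ, hψ⟩ := CHB_aut q hq
  obtain ⟨χ, hχ⟩ := CHB_aut r hr
  have h1 : Module.finrank K (U.comap (φ : (ι → K) →ₗ[K] (ι → K))) = Module.finrank K U := by
    rw [← LinearEquiv.finrank_map_eq φ (U.comap (φ : (ι → K) →ₗ[K] (ι → K))),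
      Submodule.map_comap_eq_of_surjective φ.surjective]
  have h2 : Module.finrank K (V.comap (ψ : (ι → K) →ₗ[K] (ι → K))) = Module.finrank K V := by
    rw [← LinearEquiv.finrank_map_eq ψ (V.comap (ψ : (ι → K) →ₗ[K] (ι → K))),
      Submodule.map_comap_eq_of_surjective ψ.surjective]
  have h3 : Module.finrank K (W.comap (χ : (ι → K) →ₗ[K] (ι → K))) = Module.finrank K W := by
    rw [← LinearEquiv.finrank_map_eq χ (W.comap (χ : (ι → K) →ₗ[K] (ι → K))),
      Submodule.map_comap_eq_of_surjective χ.surjective]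
  obtain ⟨u, hu, v, hv, w, hw, hne⟩ := hF (U.comap (φ : (ι → K) →ₗ[K] (ι → K)))
    (V.comap (ψ : (ι → K) →ₗ[K] (ι → K))) (W.comap (χ : (ι → K) →ₗ[K] (ι → K)))
    (by rw [h1, h2, h3]; exact hdim)
  refine ⟨φ u, hu, ψ v, hv, χ w, hw, ?_⟩
  rw [CHB_ev] at hne
  rw [hφ, hψ, hχ]
  exact hne

end Pool.Agent.helper35.MR
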