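import Pool.Agent.helper35.MR.SpecA

/-!
# Module mr:CUB: tensors all of whose monochromatic cubes have alternating sum zero
-/

set_option autoImplicit false

open Finset

namespace Pool.Agent.helper35.MR

open Pool.Agent.RRank

lemma CUB_slice {d : ℕ} {Q : Fin d → Type} {K : Type} [Field K] (α : Fin d)
    (h2 : (({α} : Finset (Fin d))ᶜ).Nonempty) {f g : ((α : Fin d) → Q α) → K}
    (hf : DependsOn f (({α} : Finset (Fin d)) : Set (Fin d)))
    (hg : DependsOn g ((({α} : Finset (Fin d))ᶜ : Finset (Fin d)) : Set (Fin d))) :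
    RankLEOne (slices d) (fun x => f x * g x) := by
  classical
  have h1 : ({α} : Finset (Fin d)).Nonempty := Finset.singleton_nonempty α
  refine rankLEOne_iff.2 ⟨pairPartition {α} h1 h2, ⟨pairPartition_mem {α} h1 h2, α, ?_⟩,
    fun J x => if J = {α} then f x else g x, ?_, ?_⟩
  · show {α} ∈ ({{α}, {α}ᶜ} : Finset (Finset (Fin d)))
    exact Finset.mem_insert_self _ _
  · intro J hJ x y hxy
    have hJ' : J = {α} ∨ J = {α}ᶜ := by
      have : J ∈ ({{α}, {α}ᶜ} : Finset (Finset (Fin d))) := hJ
      simpa using this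
    dsimp only
    rcases hJ' with rfl | rfl
    · rw [if_pos rfl, if_pos rfl]; exact hf hxy
    · rw [if_neg (ne_compl_of_nonempty h1).symm, if_neg (ne_compl_of_nonempty h1).symm]
      exact hg hxy
  · intro x
    show f x * g x = ∏ J ∈ ({{α}, {α}ᶜ} : Finset (Finset (Fin d))), if J = {α} then f x else g x
    rw [Finset.prod_pair (ne_compl_of_nonempty h1), if_pos rfl,
      if_neg (ne_compl_of_nonempty h1).symm]

/-- the mixed point -/
def CUB_mix {d : ℕ} {Q : Fin d → Type} (x y : (α : Fin d) → Q α) (e : Fin d → Bool) :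
    (α : Fin d) → Q α := fun α => if e α then y α else x α

/-- the sign -/
def CUB_sg {d : ℕ} (K : Type) [Field K] (e : Fin d → Bool) : K := ∏ α, if e α then (-1 : K) else 1

lemma CUB_eq {d : ℕ} {Q : Fin d → Type} {K : Type} [Field K] (T : ((α : Fin d) → Q α) → K)
    (x y : (α : Fin d) → Q α) (h : alt T x y = 0) :
    T y = ∑ e ∈ (Finset.univ : Finset (Fin d → Bool)).erase (fun _ => true),
      (-((-1) ^ d) * CUB_sg K e) * T (CUB_mix x y e) := by
  have h1 : alt T x y = ∑ e : Fin d → Bool, CUB_sg K e * T (CUB_mix x y e) := rfl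
  rw [h1, ← Finset.add_sum_erase _ _ (Finset.mem_univ (fun _ => true))] at h
  have h2 : CUB_sg K (fun _ : Fin d => true) = (-1) ^ d := by simp [CUB_sg]
  have h3 : CUB_mix x y (fun _ => true) = y := by
    funext α
    simp [CUB_mix]
  rw [h2, h3] at h
  have h4 : ((-1 : K) ^ d) * (-1) ^ d = 1 := by
    rw [← mul_pow]; simp
  have h5 : T y = (-1) ^ d * ((-1) ^ d * T y) := by
    rw [← mul_assoc, h4, one_mul]
  rw [h5, eq_neg_of_add_eq_zero_left h, mul_neg, Finset.mul_sum, ← Finset.sum_neg_distrib]
  refine Finset.sum_congr rfl fun e _ => ?_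
  ring

theorem CUB : CUB_stmt := by
  intro d s hd K _ Q T c hc
  classical
  have hne : ∀ α : Fin d, (({α} : Finset (Fin d))ᶜ).Nonempty := by
    intro α
    rw [← Finset.card_pos, Finset.card_compl, Finset.card_singleton, Fintype.card_fin]
    omega
  -- the direction of a vertex
  have hρ : ∃ ρ : (Fin d → Bool) → Fin d, ∀ e, e ≠ (fun _ => true) → e (ρ e) = false := by
    have : ∀ e : Fin d → Bool, ∃ α, e ≠ (fun _ => true) → e α = false := by
      intro e
      by_cases he : e = (fun _ => true)
      · exact ⟨⟨0, by omega⟩, fun h => absurd he h⟩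
      · obtain ⟨α, hα⟩ := Function.ne_iff.1 he
        exact ⟨α, fun _ => by simpa using hα⟩
    choose ρ hρ using this
    exact ⟨ρ, hρ⟩
  obtain ⟨ρ, hρ⟩ := hρ
  -- the points of the colours
  by_cases hQ : Nonempty ((α : Fin d) → Q α)
  swap
  · have h0 := SumOf.of_finset (R := slices d) (K := K) (Q := Q)
      (Finset.univ : Finset (Fin d × (Fin d → Fin s))) (fun _ _ => (0 : K)) ?_ (T := T)
      (fun x => (hQ ⟨x⟩).elim)
    · simpa using h0
    · intro i _
      have := CUB_slice (K := K) (Q := Q) i.1 (hne i.1) (f := fun _ => 0) (g := fun _ => 0)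
        (fun _ _ _ => rfl) (fun _ _ _ => rfl)
      simpa using this
  obtain ⟨q₀⟩ := hQ
  have hX : ∀ δ : Fin d → Fin s, ∃ x : (α : Fin d) → Q α,
      (∃ y : (α : Fin d) → Q α, ∀ α, c α (y α) = δ α) → ∀ α, c α (x α) = δ α := by
    intro δ
    by_cases h : ∃ y : (α : Fin d) → Q α, ∀ α, c α (y α) = δ α
    · obtain ⟨y, hy⟩ := h
      exact ⟨y, fun _ => hy⟩
    · exact ⟨q₀, fun h' => absurd h' h⟩
  choose X hX using hX
  -- the summands
  let g : Fin d × (Fin d → Fin s) → ((α : Fin d) → Q α) → K := fun p y =>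
    ∑ e ∈ (Finset.univ : Finset (Fin d → Bool)).erase (fun _ => true),
      if ρ e = p.1 then (-((-1) ^ d) * CUB_sg K e) * T (CUB_mix (X p.2) y e) else 0
  let t : Fin d × (Fin d → Fin s) → ((α : Fin d) → Q α) → K := fun p y =>
    (if c p.1 (y p.1) = p.2 p.1 then 1 else 0) *
      ((if ∀ β, β ≠ p.1 → c β (y β) = p.2 β then 1 else 0) * g p y)
  have h0 := SumOf.of_finset (R := slices d) (K := K) (Q := Q)
    (Finset.univ : Finset (Fin d × (Fin d → Fin s))) t ?_ (T := T) ?_
  · simpa using h0
  · rintro ⟨α, δ⟩ -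
    refine CUB_slice (K := K) (Q := Q) α (hne α) ?_ ?_
    · intro y y' hyy
      have : y α = y' α := hyy α (by simp)
      simp only [this]
    · intro y y' hyy
      have hyy' : ∀ β, β ≠ α → y β = y' β := fun β hβ => hyy β (by simpa using hβ)
      have e1 : (∀ β, β ≠ α → c β (y β) = δ β) ↔ (∀ β, β ≠ α → c β (y' β) = δ β) := by
        constructor
        · intro h β hβ
          rw [← hyy' β hβ]; exact h β hβ
        · intro h β hβ
          rw [hyy' β hβ]; exact h β hβ
      have e2 : g (α, δ) y = g (α, δ) y' := by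
        refine Finset.sum_congr rfl fun e he => ?_
        by_cases h : ρ e = α
        · rw [if_pos h, if_pos h]
          congr 2
          funext β
          unfold CUB_mix
          by_cases hβ : β = α
          · have : e β = false := by
              rw [hβ, ← h]
              exact hρ e (Finset.ne_of_mem_erase he)
            simp [this]
          · rw [hyy' β hβ]
        · rw [if_neg h, if_neg h]
      dsimp only
      rw [e2]
      simp only [e1]
  · intro y
    have hy : ∀ α, c α (y α) = (fun α => c α (y α)) α := fun _ => rfl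
    have hXy := hX (fun α => c α (y α)) ⟨y, hy⟩
    rw [CUB_eq T (X (fun α => c α (y α))) y (hc _ _ hXy)]
    rw [Fintype.sum_prod_type]
    have h1 : ∀ α, ∑ δ, t (α, δ) y = g (α, fun β => c β (y β)) y := by
      intro α
      rw [Finset.sum_eq_single (fun β => c β (y β))]
      · simp [t]
      · intro δ _ hδ
        show (if c α (y α) = δ α then (1 : K) else 0) *
          ((if ∀ β, β ≠ α → c β (y β) = δ β then (1 : K) else 0) * g (α, δ) y) = 0
        by_cases h1 : c α (y α) = δ α
        · rw [if_neg (c := ∀ β, β ≠ α → c β (y β) = δ β), zero_mul, mul_zero]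
          intro h2
          apply hδ
          funext β
          by_cases hβ : β = α
          · rw [hβ]; exact h1.symm
          · exact (h2 β hβ).symm
        · rw [if_neg h1, zero_mul]
      · intro h
        exact absurd (Finset.mem_univ _) h
    simp only [h1]
    show _ = ∑ α, ∑ e ∈ (Finset.univ : Finset (Fin d → Bool)).erase (fun _ => true),
      if ρ e = α then (-((-1) ^ d) * CUB_sg K e) * T (CUB_mix (X (fun β => c β (y β))) y e) else 0
    rw [Finset.sum_comm]
    refine Finset.sum_congr rfl fun e _ => ?_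
    simp

end Pool.Agent.helper35.MR
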