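import Pool.Agent.helper35.MR.SpecA

/-!
# Module mr:FS: a full tensor has full slice rank
-/

set_option autoImplicit false

open Finset

namespace Pool.Agent.helper35.MR

open Pool.Agent.RRank

lemma FS_0 {ι K : Type} [Fintype ι] [Field K] (a u : ι → K) (b : ι → ι → K) (v w : ι → K)
    (h : ∑ i, a i * u i = 0) :
    ∑ i, ∑ j, ∑ k, (a i * b j k) * (u i * v j * w k) = 0 := by
  have e : ∀ i j k, (a i * b j k) * (u i * v j * w k) = (a i * u i) * (b j k * v j * w k) :=
    fun i j k => by ring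
  simp only [e, ← Finset.mul_sum, ← Finset.sum_mul, h, zero_mul]

lemma FS_1 {ι K : Type} [Fintype ι] [Field K] (a v : ι → K) (b : ι → ι → K) (u w : ι → K)
    (h : ∑ j, a j * v j = 0) :
    ∑ i, ∑ j, ∑ k, (a j * b i k) * (u i * v j * w k) = 0 := by
  have e : ∀ i j k, (a j * b i k) * (u i * v j * w k) = (a j * v j) * (b i k * u i * w k) :=
    fun i j k => by ring
  rw [Finset.sum_comm]
  simp only [e, ← Finset.mul_sum, ← Finset.sum_mul, h, zero_mul]

lemma FS_2 {ι K : Type} [Fintype ι] [Field K] (a w : ι → K) (b : ι → ι → K) (u v : ι → K)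
    (h : ∑ k, a k * w k = 0) :
    ∑ i, ∑ j, ∑ k, (a k * b i j) * (u i * v j * w k) = 0 := by
  have e : ∀ i j k, (a k * b i j) * (u i * v j * w k) = (b i j * u i * v j) * (a k * w k) :=
    fun i j k => by ring
  simp only [e, ← Finset.mul_sum, h, mul_zero, Finset.sum_const_zero]

lemma FS_fin {ι K : Type} [Fintype ι] [Field K] {r : ℕ} (δ : Fin r → Fin 3) (A : Fin r → ι → K)
    (α : Fin 3) :
    ∃ U : Submodule K (ι → K), (∀ u ∈ U, ∀ m, δ m = α → ∑ i, A m i * u i = 0) ∧
      Fintype.card ι ≤ Module.finrank K U + (Finset.univ.filter fun m => δ m = α).card := by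
  classical
  let L : (ι → K) →ₗ[K] ({m // δ m = α} → K) :=
    Matrix.mulVecLin (Matrix.of fun (m : {m // δ m = α}) i => A m i)
  refine ⟨LinearMap.ker L, ?_, ?_⟩
  · intro u hu m hm
    rw [LinearMap.mem_ker] at hu
    exact congrFun hu ⟨m, hm⟩
  · have h1 := LinearMap.finrank_range_add_finrank_ker L
    have h2 : Module.finrank K (LinearMap.range L) ≤ (Finset.univ.filter fun m => δ m = α).card := by
      refine (Submodule.finrank_le _).trans ?_
      rw [Module.finrank_fintype_fun_eq_card, Fintype.card_subtype]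
    rw [Module.finrank_fintype_fun_eq_card] at h1
    omega

lemma FS_comm {ι K : Type} [Fintype ι] [Field K] {r : ℕ} (F : ι → ι → ι → Fin r → K) :
    ∑ i, ∑ j, ∑ k, ∑ m, F i j k m = ∑ m, ∑ i, ∑ j, ∑ k, F i j k m := by
  calc ∑ i, ∑ j, ∑ k, ∑ m, F i j k m = ∑ i, ∑ j, ∑ m, ∑ k, F i j k m :=
        Finset.sum_congr rfl fun i _ => Finset.sum_congr rfl fun j _ => Finset.sum_comm
    _ = ∑ i, ∑ m, ∑ j, ∑ k, F i j k m := Finset.sum_congr rfl fun i _ => Finset.sum_comm
    _ = ∑ m, ∑ i, ∑ j, ∑ k, F i j k m := Finset.sum_comm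

/-- a tensor with a decomposition into fewer slices is not full -/
lemma FS_main {ι K : Type} [Fintype ι] [Field K] (M : ι → ι → ι → K) {r : ℕ}
    (hr : r < Fintype.card ι) (δ : Fin r → Fin 3) (A : Fin r → ι → K)
    (B : Fin r → ι → ι → K)
    (hM : ∀ i j k, M i j k = ∑ m, (if δ m = 0 then A m i * B m j k
      else if δ m = 1 then A m j * B m i k else A m k * B m i j)) : ¬ Full3 M := by
  intro hF
  obtain ⟨U, hU, hU'⟩ := FS_fin δ A 0
  obtain ⟨V, hV, hV'⟩ := FS_fin δ A 1
  obtain ⟨W, hW, hW'⟩ := FS_fin δ A 2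
  have hcard : (Finset.univ.filter fun m => δ m = 0).card +
      (Finset.univ.filter fun m => δ m = 1).card + (Finset.univ.filter fun m => δ m = 2).card = r := by
    have := Finset.card_eq_sum_card_fiberwise (f := δ) (s := Finset.univ) (t := Finset.univ)
      (fun _ _ => Finset.mem_coe.2 (Finset.mem_univ _))
    rw [Fin.sum_univ_three, Finset.card_univ, Fintype.card_fin] at this
    exact this.symm
  obtain ⟨u, hu, v, hv, w, hw, hne⟩ := hF U V W (by omega)
  apply hne
  unfold ev3
  have e : ∀ i j k, M i j k * (u i * v j * w k) = ∑ m, (if δ m = 0 then A m i * B m j k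
      else if δ m = 1 then A m j * B m i k else A m k * B m i j) * (u i * v j * w k) := by
    intro i j k
    rw [hM, Finset.sum_mul]
  simp only [e]
  rw [FS_comm]
  refine Finset.sum_eq_zero fun m _ => ?_
  by_cases h0 : δ m = 0
  · simp only [h0, if_true]
    exact FS_0 _ _ _ _ _ (hU u hu m h0)
  by_cases h1 : δ m = 1
  · simp only [h0, h1, if_true, if_false]
    exact FS_1 _ _ _ _ _ (hV v hv m h1)
  have h2 : δ m = 2 := by
    have : ∀ x : Fin 3, x ≠ 0 → x ≠ 1 → x = 2 := by decide
    exact this _ h0 h1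
  simp only [h0, h1, if_false]
  exact FS_2 _ _ _ _ _ (hW w hw m h2)

theorem FS : FS_stmt := by
  intro K _ Q T ι _ f X hf hF
  classical
  by_contra hcon
  rw [not_le] at hcon
  obtain ⟨r, hr, t, ht, hT⟩ := exists_sumOf_of_rank_lt hcon
  -- the points
  let p : (Fin 3 → ι) → ((α : Fin 3) → X α) := fun g α => ⟨f α (g α), hf α (g α)⟩
  have hsl : ∀ m, ∃ (δ : Fin 3) (A : ι → K) (B : (Fin 3 → ι) → K),
      (∀ g g' : Fin 3 → ι, (∀ β, β ≠ δ → g β = g' β) → B g = B g') ∧
      ∀ g, t m (p g) = A (g δ) * B g := by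
    intro m
    obtain ⟨P, ⟨-, α, hα⟩, b, hb, htb⟩ := rankLEOne_iff.1 (ht m)
    refine ⟨α, fun i => b {α} (p fun _ => i), fun g => ∏ J ∈ P.parts.erase {α}, b J (p g), ?_, ?_⟩
    · intro g g' hgg
      refine Finset.prod_congr rfl fun J hJ => ?_
      apply hb J (Finset.mem_of_mem_erase hJ)
      intro β hβ
      have hne : β ≠ α := by
        intro h
        have hd := P.disjoint (Finset.mem_of_mem_erase hJ) hα (Finset.ne_of_mem_erase hJ)
        exact (Finset.disjoint_left.1 hd) (by simpa using hβ) (by simp [h])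
      have : g β = g' β := hgg β hne
      show (⟨f β (g β), _⟩ : X β) = ⟨f β (g' β), _⟩
      simp only [this]
    · intro g
      rw [htb, ← Finset.mul_prod_erase _ _ hα]
      congr 1
      apply hb {α} hα
      intro β hβ
      have hβ' : β = α := by simpa using hβ
      subst hβ'
      rfl
  choose δ A B hB htA using hsl
  have hne : Nonempty ι := by
    rw [← Fintype.card_pos_iff]
    omega
  obtain ⟨i₀⟩ := hne
  refine FS_main _ hr δ A (fun m i j => if δ m = 0 then B m ![i₀, i, j]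
    else if δ m = 1 then B m ![i, i₀, j] else B m ![i, j, i₀]) ?_ hF
  intro i j k
  have h1 : T (fun α => f α ((![i, j, k] : Fin 3 → ι) α)) = minor T X (p ![i, j, k]) := rfl
  rw [h1, hT]
  refine Finset.sum_congr rfl fun m _ => ?_
  rw [htA]
  by_cases h0 : δ m = 0
  · simp only [h0, if_true]
    congr 1
    refine hB m _ _ fun β hβ => ?_
    rw [h0] at hβ
    fin_cases β
    · exact absurd rfl hβ
    · rfl
    · rfl
  by_cases h1 : δ m = 1
  · simp only [h1, if_true, if_neg (show ¬ ((1 : Fin 3) = 0) by decide)]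
    congr 1
    refine hB m _ _ fun β hβ => ?_
    rw [h1] at hβ
    fin_cases β
    · rfl
    · exact absurd rfl hβ
    · rfl
  have h2 : δ m = 2 := by
    have : ∀ x : Fin 3, x ≠ 0 → x ≠ 1 → x = 2 := by decide
    exact this _ h0 h1
  simp only [h2, if_neg (show ¬ ((2 : Fin 3) = 0) by decide),
    if_neg (show ¬ ((2 : Fin 3) = 1) by decide)]
  congr 1
  refine hB m _ _ fun β hβ => ?_
  rw [h2] at hβ
  fin_cases β
  · rfl
  · rfl
  · exact absurd rfl hβ

end Pool.Agent.helper35.MR
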