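import Pool.Agent.helper35.MR.SpecA

/-!
# Module mr:LI: the families `bas`, `basZ`, `bas1` are linearly independent
-/

set_option autoImplicit false

open Finset

namespace Pool.Agent.helper35.MR

open Pool.Agent.RRank

lemma LI_of_mem {K : Type} [Field K] {n : ℕ} (b : Option (Fin n) → Option (Fin n) → K)
    (h : ∀ i, (Pi.single i 1 : Option (Fin n) → K) ∈ Submodule.span K (Set.range b)) :
    LinearIndependent K b := by
  refine linearIndependent_of_top_le_span_of_card_eq_finrank ?_ ?_
  · rw [← (Pi.basisFun K (Option (Fin n))).span_eq, Submodule.span_le]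
    rintro _ ⟨i, rfl⟩
    rw [Pi.basisFun_apply]
    exact h i
  · rw [Module.finrank_fintype_fun_eq_card]

theorem LI : LI_stmt := by
  intro K _ n
  refine ⟨LI_of_mem _ ?_, LI_of_mem _ ?_, LI_of_mem _ ?_⟩
  · have h0 : (Pi.single none 1 : Option (Fin n) → K) ∈
        Submodule.span K (Set.range (bas : Option (Fin n) → Option (Fin n) → K)) :=
      Submodule.subset_span ⟨none, rfl⟩
    intro i
    cases i with
    | none => exact h0
    | some i =>
      have h1 : (Pi.single (some i) 1 - Pi.single none 1 : Option (Fin n) → K) ∈
        Submodule.span K (Set.range (bas : Option (Fin n) → Option (Fin n) → K)) :=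
        Submodule.subset_span ⟨some i, rfl⟩
      have := Submodule.add_mem _ h1 h0
      rwa [sub_add_cancel] at this
  · have h0 : (Pi.single none 1 : Option (Fin n) → K) ∈
        Submodule.span K (Set.range (basZ : Option (Fin n) → Option (Fin n) → K)) :=
      Submodule.subset_span ⟨none, rfl⟩
    have key : ∀ m : ℕ, ∀ i : Fin n, (i : ℕ) = m → (Pi.single (some i) 1 : Option (Fin n) → K) ∈
        Submodule.span K (Set.range (basZ : Option (Fin n) → Option (Fin n) → K)) := by
      intro m
      induction m with
      | zero =>
        intro i hi
        have h1 : (Pi.single (some i) 1 - Pi.single (prv i) 1 : Option (Fin n) → K) ∈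
          Submodule.span K (Set.range (basZ : Option (Fin n) → Option (Fin n) → K)) :=
          Submodule.subset_span ⟨some i, rfl⟩
        have hp : prv i = none := by unfold prv; rw [dif_pos hi]
        rw [hp] at h1
        have := Submodule.add_mem _ h1 h0
        rwa [sub_add_cancel] at this
      | succ m ih =>
        intro i hi
        have h1 : (Pi.single (some i) 1 - Pi.single (prv i) 1 : Option (Fin n) → K) ∈
          Submodule.span K (Set.range (basZ : Option (Fin n) → Option (Fin n) → K)) :=
          Submodule.subset_span ⟨some i, rfl⟩
        have hp : prv i = some ⟨(i : ℕ) - 1, by omega⟩ := by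
          unfold prv
          rw [dif_neg (by omega)]
        rw [hp] at h1
        have := Submodule.add_mem _ h1 (ih ⟨(i : ℕ) - 1, by omega⟩ (by show (i : ℕ) - 1 = m; omega))
        rwa [sub_add_cancel] at this
    intro i
    cases i with
    | none => exact h0
    | some i => exact key _ i rfl
  · intro i
    exact Submodule.subset_span ⟨i, rfl⟩

end Pool.Agent.helper35.MR
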