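import Pool.Agent.helper35.MR.SpecA

/-!
# Module mr:R0: classification of the families of partitions of three indices
-/

set_option autoImplicit false

open Finset

namespace Pool.Agent.helper35.MR

open Pool.Agent.RRank

lemma R0_parts {d : ℕ} (P : IndexPartition d) (α : Fin d) (h2 : P.parts.card = 2)
    (hα : {α} ∈ P.parts) : P.parts = {{α}, {α}ᶜ} := by
  have hc : (P.parts.erase {α}).card = 1 := by
    rw [Finset.card_erase_of_mem hα, h2]
  obtain ⟨J, hJ⟩ := Finset.card_eq_one.1 hc
  have hJm : J ∈ P.parts.erase {α} := by rw [hJ]; exact Finset.mem_singleton_self J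
  have hins : P.parts = {{α}, J} := by
    rw [← Finset.insert_erase hα, hJ]
  have hd : Disjoint {α} J :=
    P.disjoint hα (Finset.mem_of_mem_erase hJm) (Finset.ne_of_mem_erase hJm).symm
  have hu : {α} ∪ J = Finset.univ := by
    have := P.sup_parts
    rw [hins, Finset.sup_insert, Finset.sup_singleton] at this
    exact this
  have hJc : J = {α}ᶜ := by
    ext x
    have h1 : x ∈ {α} ∪ J := by rw [hu]; exact Finset.mem_univ x
    rw [Finset.mem_union] at h1
    rw [Finset.mem_compl]
    constructor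
    · intro h2 h3
      exact (Finset.disjoint_left.1 hd) h3 h2
    · intro h2
      exact h1.resolve_left h2
  rw [hins, hJc]

lemma R0_slice {d : ℕ} {Q : Fin d → Type} {K : Type} [Field K] (S : Finset (Fin d)) (α : Fin d)
    (hα : α ∈ S) (h2 : (({α} : Finset (Fin d))ᶜ).Nonempty) {f g : ((α : Fin d) → Q α) → K}
    (hf : DependsOn f (({α} : Finset (Fin d)) : Set (Fin d)))
    (hg : DependsOn g ((({α} : Finset (Fin d))ᶜ : Finset (Fin d)) : Set (Fin d))) :
    RankLEOne (slicesOf S) (fun x => f x * g x) := by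
  classical
  have h1 : ({α} : Finset (Fin d)).Nonempty := Finset.singleton_nonempty α
  refine rankLEOne_iff.2 ⟨pairPartition {α} h1 h2, ⟨pairPartition_mem {α} h1 h2, α, hα, ?_⟩,
    fun J x => if J = {α} then f x else g x, ?_, ?_⟩
  · show {α} ∈ ({{α}, {α}ᶜ} : Finset (Finset (Fin d)))
    exact Finset.mem_insert_self _ _
  · intro J hJ x y hxy
    have hJ' : J = {α} ∨ J = {α}ᶜ := by
      have : J ∈ ({{α}, {α}ᶜ} : Finset (Finset (Fin d))) := hJ
      simpa using this
    dsimp only
    rcases hJ' with rfl | rfl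
    · rw [if_pos rfl, if_pos rfl]; exact hf hxy
    · rw [if_neg (ne_compl_of_nonempty h1).symm, if_neg (ne_compl_of_nonempty h1).symm]
      exact hg hxy
  · intro x
    show f x * g x = ∏ J ∈ ({{α}, {α}ᶜ} : Finset (Finset (Fin d))), if J = {α} then f x else g x
    rw [Finset.prod_pair (ne_compl_of_nonempty h1), if_pos rfl,
      if_neg (ne_compl_of_nonempty h1).symm]

lemma R0_sing (P : IndexPartition 3) (h3 : P.parts.card = 3) (α : Fin 3) : {α} ∈ P.parts := by
  classical
  obtain ⟨I, hI, hαI⟩ := P.exists_mem (Finset.mem_univ α)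
  have hsum := P.sum_card_parts
  rw [Finset.card_univ, Fintype.card_fin] at hsum
  have hpos : ∀ J ∈ P.parts, 1 ≤ J.card := fun J hJ =>
    Finset.card_pos.2 (P.nonempty_of_mem_parts hJ)
  have hI1 : I.card = 1 := by
    by_contra hne
    have hlt : ∑ J ∈ P.parts, 1 < ∑ J ∈ P.parts, J.card :=
      Finset.sum_lt_sum hpos ⟨I, hI, by have := hpos I hI; omega⟩
    rw [hsum, Finset.sum_const, h3] at hlt
    simp at hlt
  obtain ⟨β, hβ⟩ := Finset.card_eq_one.1 hI1
  rw [hβ, Finset.mem_singleton] at hαI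
  rw [hαI, ← hβ]
  exact hI

theorem R0 : R0_stmt := by
  intro R hR h2
  classical
  by_cases hall : ∀ P ∈ R, P.parts.card = 3
  · exact Or.inl hall
  right
  have hle : ∀ P : IndexPartition 3, P.parts.card ≤ 3 := by
    intro P
    have := P.card_parts_le_card
    rwa [Finset.card_univ, Fintype.card_fin] at this
  push Not at hall
  obtain ⟨P₀, hP₀, hP₀3⟩ := hall
  have hP₀2 : P₀.parts.card = 2 := by
    have h1 := h2 P₀ hP₀
    have h3 := hle P₀
    omega
  have hsl : ∀ P : IndexPartition 3, P.parts.card = 2 → ∃ α, {α} ∈ P.parts := by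
    intro P hP
    have : P ∈ slices 3 := by rw [slices_three]; exact hP
    exact this.2
  let S : Finset (Fin 3) := Finset.univ.filter fun α =>
    ∃ P ∈ R, P.parts.card = 2 ∧ {α} ∈ P.parts
  have hS : ∀ α, α ∈ S ↔ ∃ P ∈ R, P.parts.card = 2 ∧ {α} ∈ P.parts := by
    intro α
    simp [S]
  obtain ⟨α₀, hα₀⟩ := hsl P₀ hP₀2
  have hα₀S : α₀ ∈ S := (hS α₀).2 ⟨P₀, hP₀, hP₀2, hα₀⟩
  refine ⟨S, ⟨α₀, hα₀S⟩, ?_⟩
  intro K _ Q T
  have key : ∀ t : ((α : Fin 3) → Q α) → K, RankLEOne R t ↔ RankLEOne (slicesOf S) t := by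
    intro t
    constructor
    · intro h
      obtain ⟨P, hP, b, hb, ht⟩ := rankLEOne_iff.1 h
      by_cases hP2 : P.parts.card = 2
      · obtain ⟨α, hα⟩ := hsl P hP2
        exact rankLEOne_iff.2 ⟨P, ⟨hP2, α, (hS α).2 ⟨P, hP, hP2, hα⟩, hα⟩, b, hb, ht⟩
      · have hP3 : P.parts.card = 3 := by
          have h1 := h2 P hP
          have h3 := hle P
          omega
        have hα := R0_sing P hP3 α₀
        have hne : (({α₀} : Finset (Fin 3))ᶜ).Nonempty := by
          rw [← Finset.card_pos, Finset.card_compl, Finset.card_singleton, Fintype.card_fin]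
          omega
        have e : t = fun x => b {α₀} x * ∏ J ∈ P.parts.erase {α₀}, b J x := by
          funext x
          rw [ht, ← Finset.mul_prod_erase _ _ hα]
        rw [e]
        refine R0_slice S α₀ hα₀S hne (hb _ hα) ?_
        intro x y hxy
        refine Finset.prod_congr rfl fun J hJ => ?_
        apply hb J (Finset.mem_of_mem_erase hJ)
        intro β hβ
        apply hxy
        rw [Finset.mem_coe, Finset.mem_compl]
        intro hβ'
        exact (Finset.disjoint_left.1 (P.disjoint (Finset.mem_of_mem_erase hJ) hα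
          (Finset.ne_of_mem_erase hJ))) hβ hβ'
    · rintro ⟨P, ⟨hP2, α, hαS, hα⟩, a, ha⟩
      obtain ⟨P', hP', hP'2, hα'⟩ := (hS α).1 hαS
      have hPP : P = P' := Finpartition.ext (by rw [R0_parts P α hP2 hα, R0_parts P' α hP'2 hα'])
      exact ⟨P, hPP ▸ hP', a, ha⟩
  unfold rank
  congr 1
  ext r
  constructor
  · rintro ⟨k, rfl, t, ht, hT⟩
    exact ⟨k, rfl, t, fun i => (key _).1 (ht i), hT⟩
  · rintro ⟨k, rfl, t, ht, hT⟩
    exact ⟨k, rfl, t, fun i => (key _).2 (ht i), hT⟩

end Pool.Agent.helper35.MR
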