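import Pool.Agent.helper35.MR.SpecA
import Pool.Agent.helper26.Reserve.SizeTwoMinors

/-!
# Module mr:SL3: slice rank, order 3
-/

set_option autoImplicit false

open Finset

namespace Pool.Agent.helper35.MR

open Pool.Agent.RRank

lemma SL3_pos {d : ℕ} {Q : Fin d → Type} {K : Type} [Field K] (R : Set (IndexPartition d))
    (T : ((α : Fin d) → Q α) → K) : (1 : ℕ∞) ≤ rank R T ↔ ∃ x, T x ≠ 0 := by
  constructor
  · intro h
    by_contra hcon
    push Not at hcon
    have : SumOf R T 0 := ⟨fun i => i.elim0, fun i => i.elim0, fun x => by rw [hcon x]; simp⟩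
    exact not_sumOf_of_le_rank (n := 1) (by exact_mod_cast h) (r := 0) Nat.zero_lt_one this
  · rintro ⟨x, hx⟩
    by_contra hcon
    rw [not_le] at hcon
    obtain ⟨r, hr, t, -, ht⟩ := exists_sumOf_of_rank_lt (n := 1) (by exact_mod_cast hcon)
    obtain rfl : r = 0 := by omega
    exact hx (by rw [ht]; simp)

/-- large sides -/
lemma SL3_big (hP1 : P1_stmt) (hCNV : CNV_stmt) (hCASE : CASE_stmt) (hCMP : CMP_stmt)
    (hFS : FS_stmt) (m l : ℕ) (hl : 3 ≤ l) : ∃ G : ℕ, ∀ (K : Type) [Field K] (val : Fin m → K)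
    (Q : Fin 3 → Type) (T : ((α : Fin 3) → Q α) → Fin m),
    (G : ℕ∞) ≤ rank (slices 3) (fun x => val (T x)) →
    ∃ X : (α : Fin 3) → Finset (Q α), (∀ α, (X α).card ≤ l) ∧
      (l : ℕ∞) ≤ rank (slices 3) (minor (fun x => val (T x)) X) := by
  obtain ⟨G, hG⟩ := hP1 3 m (3 * l) (by omega)
  refine ⟨G, fun K _ val Q T hT => ?_⟩
  classical
  obtain ⟨V, hV, hnL, f, hf⟩ := hG K val Q T hT
  obtain ⟨c1, c2⟩ := hCNV (Fin m) K val V hV
  have hOT : OT3 (fun x y z => val (V ![x, y, z])) := by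
    intro x y z x' y' z' h1 h2 h3
    show val (V ![x, y, z]) = val (V ![x', y', z'])
    have := c1 x y z x' y' z' h1 h2 h3
    simp only at this
    rw [this]
  have hgood := hCASE K (fun x y z => val (V ![x, y, z])) hOT (c2 hnL) l hl
  obtain ⟨x, y, z, hF⟩ := hCMP K _ hOT l hgood
  have hF' : Full3 (fun i j k : Fin l => (fun w => val (T w))
      (fun α => (fun (α : Fin 3) (i : Fin l) => f α ((![x, y, z] : Fin 3 → Fin l → Fin (3 * l)) α i))
        α ((![i, j, k] : Fin 3 → Fin l) α))) := by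
    have e : (fun i j k : Fin l => (fun w => val (T w))
      (fun α => (fun (α : Fin 3) (i : Fin l) => f α ((![x, y, z] : Fin 3 → Fin l → Fin (3 * l)) α i))
        α ((![i, j, k] : Fin 3 → Fin l) α))) =
        fun i j k => val (V ![((x i : ℕ) : ℤ), ((y j : ℕ) : ℤ), ((z k : ℕ) : ℤ)]) := by
      funext i j k
      show val (T (fun α => f α ((![x, y, z] : Fin 3 → Fin l → Fin (3 * l)) α
        ((![i, j, k] : Fin 3 → Fin l) α)))) = _
      rw [hf (fun α => (![x, y, z] : Fin 3 → Fin l → Fin (3 * l)) α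
        ((![i, j, k] : Fin 3 → Fin l) α))]
      congr 2
      funext α
      fin_cases α <;> rfl
    rw [e]
    exact hF
  have := hFS K Q (fun w => val (T w)) (Fin l)
    (fun (α : Fin 3) (i : Fin l) => f α ((![x, y, z] : Fin 3 → Fin l → Fin (3 * l)) α i))
    (fun α => Finset.univ.image
      (fun i : Fin l => f α ((![x, y, z] : Fin 3 → Fin l → Fin (3 * l)) α i)))
    (fun α i => Finset.mem_image_of_mem _ (Finset.mem_univ i)) hF'
  rw [Fintype.card_fin] at this
  refine ⟨_, fun α => ?_, this⟩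
  refine Finset.card_image_le.trans ?_
  rw [Finset.card_univ, Fintype.card_fin]

theorem SL3 (hP1 : P1_stmt) (hCNV : CNV_stmt) (hCASE : CASE_stmt) (hCMP : CMP_stmt)
    (hFS : FS_stmt) : SL3_stmt := by
  classical
  have hbig : ∀ m l : ℕ, ∃ G : ℕ, 3 ≤ l → ∀ (K : Type) [Field K] (val : Fin m → K)
    (Q : Fin 3 → Type) (T : ((α : Fin 3) → Q α) → Fin m),
    (G : ℕ∞) ≤ rank (slices 3) (fun x => val (T x)) →
    ∃ X : (α : Fin 3) → Finset (Q α), (∀ α, (X α).card ≤ l) ∧
      (l : ℕ∞) ≤ rank (slices 3) (minor (fun x => val (T x)) X) := by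
    intro m l
    by_cases hl : 3 ≤ l
    · obtain ⟨G, hG⟩ := SL3_big hP1 hCNV hCASE hCMP hFS m l hl
      exact ⟨G, fun _ => hG⟩
    · exact ⟨0, fun h => absurd h hl⟩
  choose G hG using hbig
  refine ⟨fun m l => max (G m l) (max 1 (2 ^ (slices 3).ncard)), ?_⟩
  intro K _ Q T m l hfin hcard hrank
  have r1 : (1 : ℕ∞) ≤ rank (slices 3) T := by
    refine le_trans ?_ hrank
    exact_mod_cast (le_max_left 1 (2 ^ (slices 3).ncard)).trans (le_max_right (G m l) _)
  have r2 : ((2 ^ (slices 3).ncard : ℕ) : ℕ∞) ≤ rank (slices 3) T := by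
    refine le_trans ?_ hrank
    exact_mod_cast (le_max_right 1 (2 ^ (slices 3).ncard)).trans (le_max_right (G m l) _)
  have r3 : (G m l : ℕ∞) ≤ rank (slices 3) T := by
    refine le_trans ?_ hrank
    exact_mod_cast le_max_left (G m l) (max 1 (2 ^ (slices 3).ncard))
  obtain ⟨x₀, hx₀⟩ := (SL3_pos _ _).1 r1
  rcases (show l = 0 ∨ l = 1 ∨ l = 2 ∨ 3 ≤ l by omega) with rfl | rfl | rfl | hl
  · exact ⟨fun _ => ∅, fun _ => by simp, by simp⟩
  · refine ⟨fun α => {x₀ α}, fun _ => by simp, ?_⟩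
    have : (1 : ℕ∞) ≤ rank (slices 3) (minor T fun α => {x₀ α}) :=
      (SL3_pos _ _).2 ⟨fun α => ⟨x₀ α, Finset.mem_singleton_self _⟩, hx₀⟩
    exact_mod_cast this
  · obtain ⟨X, h1, h2⟩ := Pool.Agent.helper26.Reserve.SizeTwoMinors.result K 3 (by omega)
      (slices 3) Q T r2
    exact ⟨X, h1, by exact_mod_cast h2⟩
  · -- the values
    have : Fintype (Set.range T) := hfin.fintype
    have hc : Fintype.card (Set.range T) ≤ m := by
      rw [← Nat.card_eq_fintype_card]
      exact hcard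
    let e : Set.range T → Fin m := fun y => Fin.castLE hc (Fintype.equivFin _ y)
    have he : Function.Injective e :=
      (Fin.castLE_injective hc).comp (Fintype.equivFin _).injective
    let val : Fin m → K := fun i => if h : ∃ y, e y = i then (h.choose : K) else 0
    have hval : ∀ y : Set.range T, val (e y) = y := by
      intro y
      have h : ∃ y', e y' = e y := ⟨y, rfl⟩
      show (if h : ∃ y', e y' = e y then (h.choose : K) else 0) = y
      rw [dif_pos h, he h.choose_spec]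
    have hT : T = fun x => val (e ⟨T x, x, rfl⟩) := by
      funext x
      rw [hval]
    have := hG m l hl K val Q (fun x => e ⟨T x, x, rfl⟩) (by rw [← hT]; exact r3)
    rw [← hT] at this
    exact this

end Pool.Agent.helper35.MR
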