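import Pool.Agent.helper35.MR.SpecA

/-!
# Module mr:TGT: tight triples of the diagonal tensor
-/

set_option autoImplicit false

open Finset

namespace Pool.Agent.helper35.MR

open Pool.Agent.RRank

lemma TGT_rn {K V W : Type} [Field K] [AddCommGroup V] [Module K V] [AddCommGroup W] [Module K W]
    [FiniteDimensional K V] (f : V →ₗ[K] W) (A : Submodule K V) :
    Module.finrank K (A.map f) + Module.finrank K (A ⊓ LinearMap.ker f : Submodule K V) =
      Module.finrank K A := by
  have h := LinearMap.finrank_range_add_finrank_ker (f.domRestrict A)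
  rw [LinearMap.range_domRestrict] at h
  rw [← h, ← Submodule.map_comap_subtype, Submodule.finrank_map_subtype_eq]
  rfl

/-- deletion of the coordinate 0 -/
def TGT_tl (K : Type) [Field K] (n : ℕ) : (Fin (n + 1) → K) →ₗ[K] (Fin n → K) :=
  LinearMap.funLeft K K Fin.succ

lemma TGT_tl_apply {K : Type} [Field K] {n : ℕ} (x : Fin (n + 1) → K) (i : Fin n) :
    TGT_tl K n x i = x i.succ := rfl

lemma TGT_ext {K : Type} [Field K] {n : ℕ} {x y : Fin (n + 1) → K} (h0 : x 0 = y 0)
    (h : TGT_tl K n x = TGT_tl K n y) : x = y := by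
  funext i
  refine Fin.cases h0 (fun j => ?_) i
  exact congrFun h j

lemma TGT_ker {K : Type} [Field K] {n : ℕ} {x : Fin (n + 1) → K}
    (h : x ∈ LinearMap.ker (TGT_tl K n)) : x = x 0 • Pi.single 0 1 := by
  refine TGT_ext (by simp) ?_
  rw [LinearMap.mem_ker] at h
  rw [h]
  funext i
  rw [TGT_tl_apply]
  simp

lemma TGT_p1 {K : Type} [Field K] {n : ℕ} (A : Submodule K (Fin (n + 1) → K)) :
    Module.finrank K A ≤ Module.finrank K (A.map (TGT_tl K n)) + 1 := by
  rw [← TGT_rn (TGT_tl K n) A]
  have h1 : Module.finrank K (A ⊓ LinearMap.ker (TGT_tl K n) : Submodule K (Fin (n + 1) → K)) ≤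
      Module.finrank K (Submodule.span K {(Pi.single 0 1 : Fin (n + 1) → K)}) := by
    refine Submodule.finrank_mono ?_
    intro x hx
    rw [TGT_ker hx.2]
    exact Submodule.smul_mem _ _ (Submodule.mem_span_singleton_self _)
  have h2 := finrank_span_le_card (R := K) ({(Pi.single 0 1 : Fin (n + 1) → K)})
  simp only [Set.toFinset_singleton, Finset.card_singleton] at h2
  omega

lemma TGT_p2 {K : Type} [Field K] {n : ℕ} (A : Submodule K (Fin (n + 1) → K))
    (hA : (Pi.single 0 1 : Fin (n + 1) → K) ∉ A) :
    Module.finrank K A = Module.finrank K (A.map (TGT_tl K n)) := by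
  rw [← TGT_rn (TGT_tl K n) A]
  have h1 : (A ⊓ LinearMap.ker (TGT_tl K n) : Submodule K (Fin (n + 1) → K)) = ⊥ := by
    rw [Submodule.eq_bot_iff]
    intro x hx
    by_contra hne
    have h0 : x 0 ≠ 0 := by
      intro h0
      apply hne
      rw [TGT_ker hx.2, h0, zero_smul]
    apply hA
    have : (Pi.single 0 1 : Fin (n + 1) → K) = (x 0)⁻¹ • x := by
      rw [eq_inv_smul_iff₀ h0]
      exact (TGT_ker hx.2).symm
    rw [this]
    exact A.smul_mem _ hx.1
  rw [h1, finrank_bot, add_zero]

/-- evaluation at 0 -/
def TGT_ev (K : Type) [Field K] (n : ℕ) : (Fin (n + 1) → K) →ₗ[K] K := LinearMap.proj 0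

lemma TGT_p3 {K : Type} [Field K] {n : ℕ} (A : Submodule K (Fin (n + 1) → K)) :
    Module.finrank K A ≤
      Module.finrank K ((A ⊓ LinearMap.ker (TGT_ev K n)).map (TGT_tl K n)) + 1 := by
  have h1 := TGT_rn (TGT_ev K n) A
  have h2 : Module.finrank K (A.map (TGT_ev K n)) ≤ 1 := by
    have := Submodule.finrank_le (A.map (TGT_ev K n))
    rwa [Module.finrank_self] at this
  have h3 := TGT_p2 (A ⊓ LinearMap.ker (TGT_ev K n)) (by
    intro h
    have : (Pi.single 0 1 : Fin (n + 1) → K) ∈ LinearMap.ker (TGT_ev K n) := h.2
    rw [LinearMap.mem_ker] at this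
    simp [TGT_ev] at this)
  omega

lemma TGT_gen {K : Type} [Field K] (n : ℕ) : ∀ (A : Fin 3 → Submodule K (Fin n → K)),
    (∀ a : Fin 3 → Fin n → K, (∀ α, a α ∈ A α) → ∑ i, ∏ α, a α i = 0) →
    ∑ α, Module.finrank K (A α) ≤ 2 * n ∧ (∑ α, Module.finrank K (A α) = 2 * n →
      ∃ s : Fin n → Fin 3, ∀ α x, x ∈ A α ↔ ∀ i, s i = α → x i = 0) := by
  induction n with
  | zero =>
    intro A _
    have h0 : ∀ α, Module.finrank K (A α) = 0 := by
      intro α
      have := Submodule.finrank_le (A α)
      rw [Module.finrank_fin_fun] at this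
      omega
    refine ⟨by simp [h0], fun _ => ⟨Fin.elim0, fun α x => ?_⟩⟩
    have hx : x = 0 := Subsingleton.elim _ _
    rw [hx]
    exact ⟨fun _ i => i.elim0, fun _ => (A α).zero_mem⟩
  | succ n ih =>
    intro A hA
    by_cases hc : ∃ α, ∀ x ∈ A α, x 0 = 0
    · obtain ⟨α₀, hα⟩ := hc
      have hpr : ∀ a : Fin 3 → Fin n → K, (∀ α, a α ∈ (A α).map (TGT_tl K n)) →
          ∑ i, ∏ α, a α i = 0 := by
        intro a ha
        choose b hb1 hb2 using ha
        have := hA b hb1
        rw [Fin.sum_univ_succ] at this
        have hz : ∏ α, b α 0 = 0 := Finset.prod_eq_zero (Finset.mem_univ α₀) (hα _ (hb1 α₀))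
        rw [hz, zero_add] at this
        rw [← this]
        refine Finset.sum_congr rfl fun i _ => Finset.prod_congr rfl fun α _ => ?_
        rw [← hb2 α]
        rfl
      obtain ⟨ih1, ih2⟩ := ih (fun α => (A α).map (TGT_tl K n)) hpr
      have hα0 : Module.finrank K (A α₀) = Module.finrank K ((A α₀).map (TGT_tl K n)) := by
        refine TGT_p2 _ fun h => ?_
        have := hα _ h
        simp at this
      have hle : ∀ α, Module.finrank K (A α) ≤
          Module.finrank K ((A α).map (TGT_tl K n)) + (if α = α₀ then 0 else 1) := by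
        intro α
        split_ifs with h
        · rw [h, hα0]; exact le_refl _
        · exact TGT_p1 _
      have hcount : ∑ α : Fin 3, (if α = α₀ then 0 else 1) = 2 := by
        clear * -
        revert α₀
        decide
      have hsum : ∑ α, Module.finrank K (A α) ≤
          ∑ α, Module.finrank K ((A α).map (TGT_tl K n)) + 2 := by
        rw [← hcount, ← Finset.sum_add_distrib]
        exact Finset.sum_le_sum fun α _ => hle α
      refine ⟨by omega, fun heq => ?_⟩
      obtain ⟨s, hs⟩ := ih2 (by omega)
      have hee : ∀ α, α ≠ α₀ → (Pi.single 0 1 : Fin (n + 1) → K) ∈ A α := by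
        intro α hne
        by_contra hcon
        have hlt : ∑ α, Module.finrank K (A α) <
            ∑ α, (Module.finrank K ((A α).map (TGT_tl K n)) + (if α = α₀ then 0 else 1)) := by
          refine Finset.sum_lt_sum (fun α _ => hle α) ⟨α, Finset.mem_univ _, ?_⟩
          rw [TGT_p2 _ hcon, if_neg hne]
          omega
        rw [Finset.sum_add_distrib, hcount] at hlt
        omega
      refine ⟨Fin.cons α₀ s, fun α x => ?_⟩
      have key : x ∈ A α ↔ ((α = α₀ → x 0 = 0) ∧ TGT_tl K n x ∈ (A α).map (TGT_tl K n)) := by
        constructor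
        · intro hx
          exact ⟨fun h => hα x (h ▸ hx), Submodule.mem_map_of_mem hx⟩
        · rintro ⟨hx0, y, hy, hyx⟩
          by_cases hαα : α = α₀
          · have : x = y := by
              refine TGT_ext ?_ hyx.symm
              rw [hx0 hαα, hα y (hαα ▸ hy)]
            rw [this]; exact hy
          · have : x = y + (x 0 - y 0) • Pi.single 0 1 := by
              refine TGT_ext (by simp) ?_
              rw [map_add, hyx]
              funext i
              simp [TGT_tl_apply]
            rw [this]
            exact (A α).add_mem hy ((A α).smul_mem _ (hee α hαα))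
      rw [key, hs α]
      constructor
      · rintro ⟨h1, h2⟩ i
        refine Fin.cases ?_ (fun j => ?_) i
        · intro h
          exact h1 h.symm
        · intro h
          exact h2 j h
      · intro h
        exact ⟨fun h1 => h 0 (by rw [h1]; rfl), fun i hi => h i.succ (by simpa using hi)⟩
    · push Not at hc
      choose a ha1 ha2 using hc
      have hee : ∀ α, (Pi.single 0 1 : Fin (n + 1) → K) ∉ A α := by
        intro α hcon
        have := hA (Function.update a α (Pi.single 0 1)) (by
          intro β
          by_cases hβ : β = α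
          · rw [hβ, Function.update_self]; exact hcon
          · rw [Function.update_of_ne hβ]; exact ha1 β)
        rw [Fin.sum_univ_succ] at this
        have hz : ∀ i : Fin n, ∏ β, (Function.update a α (Pi.single 0 1) : Fin 3 → Fin (n + 1) → K)
            β i.succ = 0 := by
          intro i
          refine Finset.prod_eq_zero (Finset.mem_univ α) ?_
          rw [Function.update_self]
          simp
        rw [Finset.sum_eq_zero (fun i _ => hz i), add_zero, Finset.prod_eq_zero_iff] at this
        obtain ⟨β, -, hβ⟩ := this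
        by_cases hβα : β = α
        · rw [hβα, Function.update_self] at hβ
          simp at hβ
        · rw [Function.update_of_ne hβα] at hβ
          exact ha2 β hβ
      obtain ⟨ih1, -⟩ := ih (Function.update (fun α => (A α).map (TGT_tl K n)) 0
        ((A 0 ⊓ LinearMap.ker (TGT_ev K n)).map (TGT_tl K n))) (by
        intro b hb
        have hb0 : ∃ c : Fin 3 → Fin (n + 1) → K, (∀ α, c α ∈ A α) ∧ c 0 0 = 0 ∧
            ∀ α, TGT_tl K n (c α) = b α := by
          have h : ∀ α, ∃ c ∈ A α, (α = 0 → c 0 = 0) ∧ TGT_tl K n c = b α := by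
            intro α
            have := hb α
            by_cases hα : α = 0
            · subst hα
              rw [Function.update_self] at this
              obtain ⟨c, hc, hcb⟩ := this
              exact ⟨c, hc.1, fun _ => hc.2, hcb⟩
            · rw [Function.update_of_ne hα] at this
              obtain ⟨c, hc, hcb⟩ := this
              exact ⟨c, hc, fun h => absurd h hα, hcb⟩
          choose c hc1 hc2 hc3 using h
          exact ⟨c, hc1, hc2 0 rfl, hc3⟩
        obtain ⟨c, hc1, hc2, hc3⟩ := hb0
        have := hA c hc1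
        rw [Fin.sum_univ_succ] at this
        have hz : ∏ α, c α 0 = 0 := Finset.prod_eq_zero (Finset.mem_univ 0) hc2
        rw [hz, zero_add] at this
        rw [← this]
        refine Finset.sum_congr rfl fun i _ => Finset.prod_congr rfl fun α _ => ?_
        rw [← hc3 α]
        rfl)
      have h0 := TGT_p3 (A 0)
      have h1 := TGT_p2 (A 1) (hee 1)
      have h2 := TGT_p2 (A 2) (hee 2)
      rw [Fin.sum_univ_three] at ih1
      rw [Fin.sum_univ_three]
      rw [Function.update_self, Function.update_of_ne (by decide), Function.update_of_ne (by decide)]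
        at ih1
      constructor
      · omega
      · intro h
        omega

theorem TGT : TGT_stmt := by
  intro K _ n U V W h
  obtain ⟨h1, h2⟩ := TGT_gen n ![U, V, W] (by
    intro a ha
    have := h (a 0) (ha 0) (a 1) (ha 1) (a 2) (ha 2)
    rw [← this]
    refine Finset.sum_congr rfl fun i _ => ?_
    rw [Fin.prod_univ_three])
  rw [Fin.sum_univ_three] at h1 h2
  refine ⟨h1, fun he => ?_⟩
  obtain ⟨s, hs⟩ := h2 he
  exact ⟨s, fun u => hs 0 u, fun v => hs 1 v, fun w => hs 2 w⟩

end Pool.Agent.helper35.MR
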