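import Pool.Agent.helper72.MR.BT

/-!
# Module mr:U3
-/

set_option autoImplicit false

open Finset

namespace Pool.Agent.helper35.MR

open Pool.Agent.RRank

/-- positions of `x`, `y` -/
def U3_px {n : ℕ} : Option (Fin n) → ℤ
  | none => n
  | some i => (i : ℕ)

/-- positions of `z` -/
def U3_pz {n : ℕ} : Option (Fin n) → ℤ
  | none => n + 1
  | some i => (i : ℕ)

theorem U3 (hEXT : EXT_stmt) (hCHB : CHB_stmt) (hLI : LI_stmt) (hOPT : OPT_stmt) : U3_stmt := by
  intro K _ V A B δ hA hδ hV n
  by_contra hG
  let M : Option (Fin n) → Option (Fin n) → Option (Fin n) → K :=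
    fun i j k => V (U3_px i) (U3_px j) (U3_pz k)
  let t : Option (Fin n) → Option (Fin n) → Option (Fin n) → K :=
    fun i j k => ev3 M (bas i) (bas1 j) (bas k)
  have hnF : ¬ Full3 t := by
    intro hF
    have hM : Full3 M := hCHB K _ M bas bas1 bas (hLI K n).1 (hLI K n).2.2 (hLI K n).1 hF
    exact hG (hOPT K V n _ _ _ hM)
  have m000 : M none none none = A := by
    show V (n : ℤ) (n : ℤ) (n + 1 : ℤ) = A
    rw [hV, if_pos rfl, if_neg (by omega), if_neg (by omega), add_zero, add_zero]
  have m100 : ∀ i : Fin n, M (some i) none none = 0 := by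
    intro i
    show V ((i : ℕ) : ℤ) (n : ℤ) (n + 1 : ℤ) = 0
    rw [hV, if_neg (by omega), if_neg (by omega), if_neg (by omega), add_zero, add_zero]
  have m010 : ∀ j : Fin n, M none (some j) none = 0 := by
    intro j
    show V (n : ℤ) ((j : ℕ) : ℤ) (n + 1 : ℤ) = 0
    rw [hV, if_neg (by omega), if_neg (by omega), if_neg (by omega), add_zero, add_zero]
  have m001 : ∀ k : Fin n, M none none (some k) = A := by
    intro k
    show V (n : ℤ) (n : ℤ) ((k : ℕ) : ℤ) = A
    rw [hV, if_pos rfl, if_neg (by omega), if_neg (by omega), add_zero, add_zero]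
  have m110 : ∀ i j : Fin n, M (some i) (some j) none = if i = j then A else 0 := by
    intro i j
    show V ((i : ℕ) : ℤ) ((j : ℕ) : ℤ) (n + 1 : ℤ) = _
    rw [hV, if_neg (c := ((j : ℕ) : ℤ) = (n : ℤ) + 1) (by omega),
      if_neg (c := ((i : ℕ) : ℤ) = ((j : ℕ) : ℤ) ∧ _) (by omega), add_zero, add_zero]
    have : ((i : ℕ) : ℤ) = ((j : ℕ) : ℤ) ↔ i = j := by rw [Fin.ext_iff]; omega
    simp only [this]
  have m101 : ∀ i k : Fin n, M (some i) none (some k) = 0 := by
    intro i k
    show V ((i : ℕ) : ℤ) (n : ℤ) ((k : ℕ) : ℤ) = 0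
    rw [hV, if_neg (by omega), if_neg (by omega), if_neg (by omega), add_zero, add_zero]
  have m011 : ∀ j k : Fin n, M none (some j) (some k) = if j = k then B else 0 := by
    intro j k
    show V (n : ℤ) ((j : ℕ) : ℤ) ((k : ℕ) : ℤ) = _
    rw [hV, if_neg (c := (n : ℤ) = ((j : ℕ) : ℤ)) (by omega),
      if_neg (c := (n : ℤ) = ((j : ℕ) : ℤ) ∧ _) (by omega), add_zero, zero_add]
    have : ((j : ℕ) : ℤ) = ((k : ℕ) : ℤ) ↔ j = k := by rw [Fin.ext_iff]; omega
    simp only [this]
  have m111 : ∀ i j k : Fin n, M (some i) (some j) (some k) =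
      (if i = j then A else 0) + (if j = k then B else 0) + (if i = j ∧ j = k then δ else 0) := by
    intro i j k
    show V ((i : ℕ) : ℤ) ((j : ℕ) : ℤ) ((k : ℕ) : ℤ) = _
    rw [hV]
    have e1 : ((i : ℕ) : ℤ) = ((j : ℕ) : ℤ) ↔ i = j := by rw [Fin.ext_iff]; omega
    have e2 : ((j : ℕ) : ℤ) = ((k : ℕ) : ℤ) ↔ j = k := by rw [Fin.ext_iff]; omega
    simp only [e1, e2]
  have t000 : t none none none = A := by
    simp only [t, bas, bas1, BT_single, m000]
  have t100 : ∀ i, t (some i) none none = - A := by
    intro i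
    simp only [t, bas, bas1, BT_sub0, BT_single, m000, m100, zero_sub]
  have t010 : ∀ j, t none (some j) none = 0 := by
    intro j
    simp only [t, bas, bas1, BT_single, m010]
  have t001 : ∀ k, t none none (some k) = 0 := by
    intro k
    simp only [t, bas, bas1, BT_sub2, BT_single, m001, m000, sub_self]
  have t110 : ∀ i j, t (some i) (some j) none = if i = j then A else 0 := by
    intro i j
    simp only [t, bas, bas1, BT_sub0, BT_single, m110, m010, sub_zero]
  have t101 : ∀ i k, t (some i) none (some k) = 0 := by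
    intro i k
    simp only [t, bas, bas1, BT_sub0, BT_sub2, BT_single, m101, m001, m100, m000, sub_self]
  have t011 : ∀ j k, t none (some j) (some k) = if j = k then B else 0 := by
    intro j k
    simp only [t, bas, bas1, BT_sub2, BT_single, m011, m010, sub_zero]
  have t111 : ∀ i j k : Fin n, t (some i) (some j) (some k) = if i = j ∧ j = k then δ else 0 := by
    intro i j k
    simp only [t, bas, bas1, BT_sub0, BT_sub2, BT_single, m111, m011, m110, m010]
    ring
  obtain ⟨s, a', b', c', hv⟩ := hEXT K n t δ hδ t111 hnF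
  have hb : ∀ i, b' i = 0 := by
    intro i
    by_cases hs : s i = 1
    · have := hv.E2 i i (by rw [hs]; decide) (by rw [hs]; decide)
      rw [t101, if_pos rfl, zero_add] at this
      exact (mul_eq_zero.1 this).resolve_left hδ
    · exact hv.sb i hs
  have hs : ∀ i, s i = 0 := by
    intro i
    by_contra hsi
    have := hv.E4 i hsi
    rw [t100, Finset.sum_eq_zero (fun j _ => by rw [hb, zero_mul]),
      Finset.sum_eq_zero (fun k _ => by rw [t101, mul_zero]), add_zero, add_zero, neg_eq_zero] at this
    exact hA this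
  have hc : ∀ i, c' i = 0 := fun i => hv.sc i (by rw [hs]; decide)
  have ha : ∀ i, a' i = 0 := by
    intro j
    have := hv.E5 j (by rw [hs]; decide)
    rw [t010, Finset.sum_eq_zero (f := fun k => c' k * _) (fun k _ => by rw [hc, zero_mul]),
      zero_add, add_zero] at this
    simp only [t110] at this
    simp only [mul_ite, mul_zero, Finset.sum_ite_eq', Finset.mem_univ, if_true] at this
    exact (mul_eq_zero.1 this).resolve_right hA
  have := hv.E7
  simp only [ha, hb, hc, zero_mul, mul_zero, Finset.sum_const_zero, add_zero, t000] at this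
  exact hA this

end Pool.Agent.helper35.MR
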