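import Pool.Agent.helper35.MR.SpecA

/-!
# Module mr:U4: the diagonal tensor is full
-/

set_option autoImplicit false

open Finset

namespace Pool.Agent.helper35.MR

open Pool.Agent.RRank

theorem U4 (hTGT : TGT_stmt) : U4_stmt := by
  intro K _ V δ hδ hV n
  refine ⟨fun i => ((i : ℕ) : ℤ), fun i => ((i : ℕ) : ℤ), fun i => ((i : ℕ) : ℤ), ?_⟩
  intro U W X hdim
  by_contra hcon
  push Not at hcon
  have hM : ∀ u v w : Fin n → K,
      ev3 (fun i j k : Fin n => V ((i : ℕ) : ℤ) ((j : ℕ) : ℤ) ((k : ℕ) : ℤ)) u v w =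
        δ * ∑ i, u i * v i * w i := by
    intro u v w
    unfold ev3
    rw [Finset.mul_sum]
    refine Finset.sum_congr rfl fun i _ => ?_
    rw [Finset.sum_eq_single i, Finset.sum_eq_single i]
    · show V _ _ _ * _ = _
      rw [hV, if_pos ⟨rfl, rfl⟩]
    · intro k _ hk
      show V _ _ _ * _ = _
      rw [hV, if_neg, zero_mul]
      rintro ⟨_, h⟩
      exact hk (Fin.ext (by exact_mod_cast h.symm))
    · intro h
      exact absurd (Finset.mem_univ i) h
    · intro j _ hj
      refine Finset.sum_eq_zero fun k _ => ?_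
      show V _ _ _ * _ = _
      rw [hV, if_neg, zero_mul]
      rintro ⟨h, _⟩
      exact hj (Fin.ext (by exact_mod_cast h.symm))
    · intro h
      exact absurd (Finset.mem_univ i) h
  have h0 : ∀ u ∈ U, ∀ v ∈ W, ∀ w ∈ X, ∑ i, u i * v i * w i = 0 := by
    intro u hu v hv w hw
    have := hcon u hu v hv w hw
    rw [hM] at this
    exact (mul_eq_zero.1 this).resolve_left hδ
  have := (hTGT K n U W X h0).1
  rw [Fintype.card_fin] at hdim
  omega

end Pool.Agent.helper35.MR
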