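import Pool.Agent.helper35.MR.SpecA

/-!
# Module mr:CASE
-/

set_option autoImplicit false

open Finset

namespace Pool.Agent.helper35.MR

open Pool.Agent.RRank

/-- replace the value at `eq` -/
def CASE_up {K : Type} (a : Ordering → K) (e : K) : Ordering → K
  | .lt => a .lt
  | .eq => e
  | .gt => a .gt

lemma CASE_up_ne {K : Type} (a : Ordering → K) (e : K) {x y : ℤ} (h : x ≠ y) :
    CASE_up a e (cmp x y) = a (cmp x y) := by
  rcases lt_or_gt_of_ne h with h | h
  · rw [(cmp_eq_lt_iff _ _).2 h]; rfl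
  · rw [(cmp_eq_gt_iff _ _).2 h]; rfl

lemma CASE_up_eq {K : Type} (a : Ordering → K) (e : K) {x y : ℤ} (h : x = y) :
    CASE_up a e (cmp x y) = e := by
  rw [(cmp_eq_eq_iff _ _).2 h]; rfl

lemma CASE_lt {x y : ℤ} (h : x < y) : cmp x y = .lt := (cmp_eq_lt_iff _ _).2 h
lemma CASE_gt {x y : ℤ} (h : y < x) : cmp x y = .gt := (cmp_eq_gt_iff _ _).2 h
lemma CASE_eq {x y : ℤ} (h : x = y) : cmp x y = .eq := (cmp_eq_eq_iff _ _).2 h

/-- form K -/
lemma CASE_K (hK : KALL_stmt) {K : Type} [Field K] (W : ℤ → ℤ → ℤ → K) (hW : OT3 W)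
    (a b c : Ordering → K)
    (hs : ∀ x y z : ℤ, x ≠ y → y ≠ z → x ≠ z → W x y z = a (cmp x y) + b (cmp y z) + c (cmp x z))
    (hne : W 0 0 1 - b .lt - c .lt ≠ W 1 1 0 - b .gt - c .gt) (l : ℕ) (hl : 3 ≤ l) : Good3 W l := by
  refine hK K W (CASE_up a (W 1 1 0 - b .gt - c .gt)) b c
    (W 0 0 1 - b .lt - c .lt - (W 1 1 0 - b .gt - c .gt)) hW ?_ (sub_ne_zero.2 hne) l hl
  intro x y z h1 h2
  by_cases hxy : x = y
  · subst hxy
    rw [CASE_up_eq _ _ rfl]
    rcases lt_or_gt_of_ne h1 with h | h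
    · rw [hW x x z 1 1 0 (by simp) (by rw [CASE_gt h]; rfl) (by rw [CASE_gt h]; rfl), CASE_gt h,
        if_neg (by omega)]
      ring
    · rw [hW x x z 0 0 1 (by simp) (by rw [CASE_lt h]; rfl) (by rw [CASE_lt h]; rfl), CASE_lt h,
        if_pos ⟨rfl, h⟩]
      ring
  · rw [hs x y z hxy h2.symm h1.symm, CASE_up_ne _ _ hxy, if_neg (fun h => hxy h.1), add_zero]

lemma CASE_sw {x y x' y' : ℤ} (h : cmp x y = cmp x' y') : cmp y x = cmp y' x' := by
  rw [← cmp_swap x y, h, cmp_swap]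

theorem CASE (hSTR : STR_stmt) (hK : KALL_stmt) (hB : BALL_stmt) (hSYM : SYM_stmt) : CASE_stmt := by
  intro K _ V hV hL l hl
  by_cases hst : ∃ a b c : Ordering → K, ∀ x y z : ℤ, x ≠ y → y ≠ z → x ≠ z →
    V x y z = a (cmp x y) + b (cmp y z) + c (cmp x z)
  swap
  · exact hSTR K V hV hst l (by omega)
  obtain ⟨a, b, c, hs⟩ := hst
  by_contra hG
  -- ties x = y
  have k1 : V 0 0 1 - b .lt - c .lt = V 1 1 0 - b .gt - c .gt := by
    by_contra hne
    exact hG (CASE_K hK V hV a b c hs hne l hl)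
  -- ties y = z
  have k2 : V 1 0 0 - c .gt - a .gt = V 0 1 1 - c .lt - a .lt := by
    by_contra hne
    apply hG
    refine (hSYM K V l).1 ((hSYM K (fun x y z => V y x z) l).2.1 ?_)
    refine CASE_K hK (fun x y z => V z x y) ?_ b (fun o => c o.swap) (fun o => a o.swap) ?_ hne l hl
    · intro x y z x' y' z' h1 h2 h3
      exact hV _ _ _ _ _ _ (CASE_sw h3) h1 (CASE_sw h2)
    · intro x y z h1 h2 h3
      show V z x y = b (cmp x y) + c (cmp y z).swap + a (cmp x z).swap
      rw [hs z x y h3.symm h1 h2.symm, cmp_swap, cmp_swap]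
      ring
  -- ties x = z
  have k3 : V 0 1 0 - b .gt - a .lt = V 1 0 1 - b .lt - a .gt := by
    by_contra hne
    apply hG
    refine (hSYM K V l).2.1 ?_
    refine CASE_K hK (fun x y z => V x z y) ?_ c (fun o => b o.swap) a ?_ hne l hl
    · intro x y z x' y' z' h1 h2 h3
      exact hV _ _ _ _ _ _ h3 (CASE_sw h2) h1
    · intro x y z h1 h2 h3
      show V x z y = c (cmp x y) + b (cmp y z).swap + a (cmp x z)
      rw [hs x z y h3 h2.symm h1, cmp_swap]
      ring
  -- form B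
  have hform : BForm V (CASE_up a (V 1 1 0 - b .gt - c .gt)) (CASE_up b (V 1 0 0 - c .gt - a .gt))
      (CASE_up c (V 0 1 0 - b .gt - a .lt)) (V 0 0 0 - (V 1 1 0 - b .gt - c .gt) -
        (V 1 0 0 - c .gt - a .gt) - (V 0 1 0 - b .gt - a .lt)) := by
    intro x y z
    by_cases hxy : x = y
    · by_cases hyz : y = z
      · -- all equal
        have hxz : x = z := hxy.trans hyz
        rw [hV x y z 0 0 0 (CASE_eq hxy) (CASE_eq hyz) (CASE_eq hxz), CASE_up_eq _ _ hxy,
          CASE_up_eq _ _ hyz, CASE_up_eq _ _ hxz, if_pos ⟨hxy, hyz⟩]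
        ring
      · have hxz : x ≠ z := fun h => hyz (hxy.symm.trans h)
        rw [CASE_up_eq _ _ hxy, CASE_up_ne _ _ hyz, CASE_up_ne _ _ hxz, if_neg (fun h => hyz h.2)]
        rcases lt_or_gt_of_ne hyz with h | h
        · rw [hV x y z 0 0 1 (CASE_eq hxy) (CASE_lt h) (CASE_lt (hxy ▸ h)), CASE_lt h,
            CASE_lt (show x < z from hxy ▸ h), ← k1]
          ring
        · rw [hV x y z 1 1 0 (CASE_eq hxy) (CASE_gt h) (CASE_gt (show z < x by omega)), CASE_gt h,
            CASE_gt (show z < x by omega)]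
          ring
    · by_cases hyz : y = z
      · have hxz : x ≠ z := fun h => hxy (h.trans hyz.symm)
        rw [CASE_up_ne _ _ hxy, CASE_up_eq _ _ hyz, CASE_up_ne _ _ hxz, if_neg (fun h => hxy h.1)]
        rcases lt_or_gt_of_ne hxy with h | h
        · rw [hV x y z 0 1 1 (CASE_lt h) (CASE_eq hyz) (CASE_lt (show x < z by omega)), CASE_lt h,
            CASE_lt (show x < z by omega), k2]
          ring
        · rw [hV x y z 1 0 0 (CASE_gt h) (CASE_eq hyz) (CASE_gt (show z < x by omega)), CASE_gt h,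
            CASE_gt (show z < x by omega)]
          ring
      · by_cases hxz : x = z
        · rw [CASE_up_ne _ _ hxy, CASE_up_ne _ _ hyz, CASE_up_eq _ _ hxz, if_neg (fun h => hxy h.1)]
          rcases lt_or_gt_of_ne hxy with h | h
          · rw [hV x y z 0 1 0 (CASE_lt h) (CASE_gt (show z < y by omega)) (CASE_eq hxz), CASE_lt h,
              CASE_gt (show z < y by omega)]
            ring
          · rw [hV x y z 1 0 1 (CASE_gt h) (CASE_lt (show y < z by omega)) (CASE_eq hxz), CASE_gt h,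
              CASE_lt (show y < z by omega), k3]
            ring
        · rw [CASE_up_ne _ _ hxy, CASE_up_ne _ _ hyz, CASE_up_ne _ _ hxz, if_neg (fun h => hxy h.1),
            hs x y z hxy hyz hxz, add_zero]
  by_cases hδ : V 0 0 0 - (V 1 1 0 - b .gt - c .gt) - (V 1 0 0 - c .gt - a .gt) -
      (V 0 1 0 - b .gt - a .lt) = 0
  · apply hL
    refine ⟨CASE_up a (V 1 1 0 - b .gt - c .gt), CASE_up b (V 1 0 0 - c .gt - a .gt),
      CASE_up c (V 0 1 0 - b .gt - a .lt), fun x y z => ?_⟩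
    rw [hform x y z, hδ, ite_self, add_zero]
  · exact hG (hB K V _ _ _ _ hV hform hδ l hl)

end Pool.Agent.helper35.MR
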